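import Pool.Agent.MP_ebd0f7_an.DyEx

/-! Attainment: fold the set at the left end of the interval of its largest point. -/

namespace Pool.Agent.MP_ebd0f7_an.Dy

open Set MeasureTheory

theorem good_lim {L : Set ℝ} {c : ℝ} (c1 : c < 1)
    (H : ∀ c' < c, ∀ (E : Set ℝ) (δ : ℝ → ℝ), IsCompact E → (∀ x ∈ E, 0 < δ x) →
      (∀ x ∈ E, δ x ∈ L) →
      ∃ F : Finset ℝ, ↑F ⊆ E ∧ Dis δ F ∧ c' * (volume E).toReal ≤ ∑ x ∈ F, 2 * δ x)
    {E : Set ℝ} {δ : ℝ → ℝ} (hE : IsCompact E) (hp : ∀ x ∈ E, 0 < δ x) (h : ∀ x ∈ E, δ x ∈ L) :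
    Good c E δ := by
  classical
  have hf : volume E ≠ ⊤ := hE.measure_lt_top.ne
  by_contra hn
  set V := (volume E).toReal with hV
  have V0 : 0 ≤ V := ENNReal.toReal_nonneg
  have h1 : ∀ F : Finset ℝ, ↑F ⊆ E → Dis δ F → ∑ x ∈ F, 2 * δ x < c * V := fun F hF hd =>
    lt_of_not_ge fun h => hn (good_of hp hf hF hd h)
  have h0 : 0 < c * V := by simpa using h1 ∅ (by simp) (sep_empty _ _)
  have ne : E.Nonempty := by
    by_contra hq
    simp [hV, not_nonempty_iff_eq_empty.1 hq] at h0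
  obtain ⟨x₀, x1, x2⟩ := hE.exists_isGreatest ne
  set d := δ x₀ with hd
  have d0 : 0 < d := hp x₀ x1
  have h3 : ∀ F : Finset ℝ, ↑F ⊆ E → Dis δ F → (∀ x ∈ F, x + δ x ≤ x₀ - d) →
      ∑ x ∈ F, 2 * δ x + 2 * d < c * V := by
    intro F hF hD hx
    have xn : x₀ ∉ F := fun hq => by linarith [hx x₀ hq]
    have := h1 (insert x₀ F) (by rw [Finset.coe_insert]; exact insert_subset x1 hF)
      (hD.insert fun y hy => Or.inr (hx y hy))
    rw [Finset.sum_insert xn] at this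
    linarith
  have dV : 2 * d < c * V := by simpa using h3 ∅ (by simp) (sep_empty _ _) (by simp)
  have cV : c * V ≤ V := by nlinarith
  set t := x₀ - d with ht
  set σ : ℝ → ℝ := fun x => 2 * t - x with hσ
  set E₀ := E ∩ Iic t with hE₀
  have k0 : IsCompact E₀ := hE.inter_right isClosed_Iic
  set E' := E₀ ∪ σ ⁻¹' E₀ with hE'
  set δ' : ℝ → ℝ := fun x => if x ≤ t then δ x else δ (σ x) with hδ'
  have im : σ ⁻¹' E₀ = σ '' E₀ := by
    ext x
    exact ⟨fun hx => ⟨σ x, hx, by simp [hσ]⟩, by rintro ⟨y, hy, rfl⟩; simpa [hσ] using hy⟩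
  have kE : IsCompact E' := k0.union (im ▸ k0.image (continuous_const.sub continuous_id))
  have mL : ∀ x ∈ E', x ≤ t → x ∈ E := by
    rintro x (hx | hx) h4
    · exact hx.1
    · have a1 : 2 * t - x ≤ t := hx.2
      have a2 : σ x = x := by simp only [hσ]; linarith
      exact a2 ▸ hx.1
  have mR : ∀ x ∈ E', t < x → σ x ∈ E := by
    rintro x (hx | hx) h4
    · linarith [mem_Iic.1 hx.2]
    · exact hx.1
  have dL : ∀ x, x ≤ t → δ' x = δ x := fun x hx => if_pos hx
  have dR : ∀ x, t < x → δ' x = δ (σ x) := fun x hx => if_neg (not_le.2 hx)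
  have all : ∀ x ∈ E', 0 < δ' x ∧ δ' x ∈ L := by
    intro x hx
    rcases le_or_gt x t with a1 | a1
    · rw [dL x a1]; exact ⟨hp _ (mL x hx a1), h _ (mL x hx a1)⟩
    · rw [dR x a1]; exact ⟨hp _ (mR x hx a1), h _ (mR x hx a1)⟩
  have vol : 2 * V - 2 * d ≤ (volume E').toReal := by
    have m0 : MeasurableSet (E ∩ Iio t) := hE.measurableSet.inter measurableSet_Iio
    have f0 : volume (E ∩ Iio t) ≠ ⊤ := ne_top_of_le_ne_top hf (measure_mono inter_subset_left)
    have e1 : volume (σ ⁻¹' (E ∩ Iio t)) = volume (E ∩ Iio t) :=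
      (Measure.measurePreserving_sub_left volume _).measure_preimage m0.nullMeasurableSet
    have e0 : MeasurableSet (σ ⁻¹' (E ∩ Iio t)) := m0.preimage (measurable_const.sub measurable_id)
    have e2 : volume (E ∩ Iio t ∪ σ ⁻¹' (E ∩ Iio t)) = volume (E ∩ Iio t) + volume (E ∩ Iio t) := by
      rw [measure_union ?_ e0, e1]
      refine Set.disjoint_left.2 fun x a1 a2 => ?_
      have a3 : 2 * t - x < t := a2.2
      linarith [mem_Iio.1 a1.2]
    have s0 : E ∩ Iio t ⊆ E₀ := inter_subset_inter_right _ Iio_subset_Iic_self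
    have e3 := ENNReal.toReal_mono kE.measure_lt_top.ne (e2.ge.trans (measure_mono
      (union_subset_union s0 (preimage_mono s0))))
    rw [ENNReal.toReal_add f0 f0] at e3
    have s1 : E ⊆ E ∩ Iio t ∪ Icc t x₀ := fun x hx =>
      (lt_or_ge x t).imp (fun a => ⟨hx, a⟩) fun a => ⟨a, x2 hx⟩
    have e4 := (measureReal_mono (μ := volume) s1
      (measure_union_ne_top f0 measure_Icc_lt_top.ne)).trans (measureReal_union_le _ _)
    rw [Real.volume_real_Icc_of_le (by linarith)] at e4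
    simp only [Measure.real] at e4
    linarith
  have Q0 : 0 < 2 * V - 2 * d := by linarith
  obtain ⟨F, f1, f2, f3⟩ := H ((2 * (c * V) - 2 * d) / (2 * V - 2 * d))
    (by rw [div_lt_iff₀ Q0]; nlinarith) E' δ' kE (fun x hx => (all x hx).1) fun x hx => (all x hx).2
  have f4 : 2 * (c * V) - 2 * d ≤ ∑ x ∈ F, 2 * δ' x := by
    refine le_trans ?_ f3
    rw [div_mul_eq_mul_div, le_div_iff₀ Q0]
    nlinarith
  set A := F.filter (· ≤ t) with hA
  set B := (F.filter (t < ·)).image σ with hB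
  have mB : ∀ x ∈ B, σ x ∈ F ∧ t < σ x ∧ δ' (σ x) = δ x := by
    intro x hx
    obtain ⟨y, hy, rfl⟩ := Finset.mem_image.1 hx
    have e : σ (σ y) = y := by simp [hσ]
    rw [Finset.mem_filter] at hy
    rw [e]
    exact ⟨hy.1, hy.2, dR y hy.2⟩
  have a1 : (↑A : Set ℝ) ⊆ E := fun x hx =>
    mL x (f1 (Finset.mem_filter.1 hx).1) (Finset.mem_filter.1 hx).2
  have b1 : (↑B : Set ℝ) ⊆ E := fun x hx => by
    have := mR _ (f1 (mB x hx).1) (mB x hx).2.1
    simpa [hσ] using this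
  have a2 : Dis δ A := fun x hx y hy hxy => by
    rw [Finset.mem_filter] at hx hy
    have := f2 x hx.1 y hy.1 hxy
    simpa only [dL x hx.2, dL y hy.2] using this
  have b2 : Dis δ B := fun x hx y hy hxy => by
    have := f2 _ (mB x hx).1 _ (mB y hy).1 fun e => hxy (by simp only [hσ] at e; linarith)
    simp only [(mB x hx).2.2, (mB y hy).2.2] at this
    simp only [hσ] at this ⊢
    rcases this with h4 | h4
    · right; linarith
    · left; linarith
  have sm : ∑ x ∈ F, 2 * δ' x = ∑ x ∈ A, 2 * δ x + ∑ x ∈ B, 2 * δ x := by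
    rw [hB, Finset.sum_image fun x _ y _ e => by simp only [hσ] at e; linarith,
      hA, Finset.sum_filter, Finset.sum_filter, ← Finset.sum_add_distrib]
    refine Finset.sum_congr rfl fun x _ => ?_
    rcases le_or_gt x t with c1 | c1
    · rw [if_pos c1, if_neg (by linarith), dL x c1]; ring
    · rw [if_neg (by linarith), if_pos c1, dR x c1]; ring
  by_cases hc : ∀ x ∈ A, x + δ x ≤ t
  · linarith [h3 A a1 a2 hc, h1 B b1 b2]
  push Not at hc
  obtain ⟨m, hm, m3⟩ := hc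
  obtain ⟨m0, m1⟩ := Finset.mem_filter.1 hm
  have b3 := h3 B b1 b2 fun x hx => by
    have p := hp x (b1 hx)
    have p' := hp m (a1 hm)
    obtain ⟨e1, e2, e3⟩ := mB x hx
    have := f2 _ e1 m m0 (by linarith)
    simp only [e3, dL m m1] at this
    simp only [hσ] at this e2
    rcases this with h4 | h4 <;> linarith
  linarith [h1 A a1 a2]

theorem good_lac {L : Set ℝ} {k : ℝ} (k2 : 1 ≤ 2 * k) (k1 : k < 1)
    (hL : ∀ x ∈ L, ∀ y ∈ L, x < y → x ≤ k * y) {E : Set ℝ} {δ : ℝ → ℝ} (hE : IsCompact E)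
    (hp : ∀ x ∈ E, 0 < δ x) (h : ∀ x ∈ E, δ x ∈ L) : Good (1 / (1 + k)) E δ :=
  good_lim ((div_lt_one (by linarith)).2 (by linarith)) (fun c hc _ _ h1 h2 h3 => fin_lac k2 k1 hL
    (by linarith [(lt_div_iff₀ (by linarith : 0 < 1 + k)).1 hc]) h1 h2 h3) hE hp h

end Pool.Agent.MP_ebd0f7_an.Dy
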