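import Mathlib.Algebra.Order.Archimedean.Real.Basic
import Mathlib.Tactic.Linarith
import Mathlib.Tactic.Ring

/-! Two-level selection lemma, abstract form.  `T` holds the centres of radius `R`, `S` those of
radius `r`, all other radii are at most `u`.  `A p v` says that some selection to the right of
`p` has value at least `v`; `M` is the distribution function of `T`. -/

namespace Pool.Agent.MP_ebd0f7_an.Dy

structure Ctx (T S : Set ℝ) (M : ℝ → ℝ) (A : ℝ → ℝ → Prop) (R r u a b K : ℝ) : Prop where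
  u0 : 0 ≤ u
  ur : u ≤ r
  ra : r ≤ a
  rR : r ≤ R
  R0 : 0 < R
  Ra : R ≤ 2 * a
  ab : R + r ≤ 2 * a + 2 * b
  au : R - r ≤ 2 * a - 2 * u
  lo : ∀ t, ∀ x ∈ T, t ≤ x → ∃ y ∈ T, t ≤ y ∧ ∀ z ∈ T, t ≤ z → y ≤ z
  hi : ∀ t, ∀ x ∈ T, x ≤ t → ∃ y ∈ T, y ≤ t ∧ ∀ z ∈ T, z ≤ t → z ≤ y
  mono : Monotone M
  lip : ∀ s t, s ≤ t → M t - M s ≤ t - s
  free : ∀ s t, (∀ x ∈ T, s < x → t ≤ x) → M t ≤ M s
  TK : ∀ x ∈ T, x ≤ K
  SK : ∀ x ∈ S, x ≤ K
  base : ∀ p, K ≤ p → A p 0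
  dn : ∀ p v v', A p v → v' ≤ v → A p v'
  T1 : ∀ y ∈ T, ∀ p v, y + R ≤ p → A p v → A (y - R) (v + R + 2 * a - (p - y))
  T2 : ∀ y ∈ T, ∀ p v t t' s, y + R ≤ p → A p v → y + R + u ≤ t' → t ≤ t' → s ≤ p - u →
    (∀ x ∈ S, t < x → x < s → y + R + r < x ∧ x < p - r) →
    A (y - R) (v + 2 * R + 2 * a - (t' - y + R + u + (M s - M t) + (p - u - s)))
  S1 : ∀ z ∈ S, ∀ p v, z + r ≤ p → A p v → A (z - r) (v + r + 2 * b - (p - z))
  S2 : ∀ z ∈ S, ∀ p v s, z + r ≤ p → A p v → s ≤ p - u →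
    (∀ x ∈ S, z + 2 * r < x → x < s → x < p - r) →
    A (z - r) (v + 2 * b - r - u - (M s - M (z + 2 * r)) - (p - u - s))

/-- A block of centres. -/
def Blk (T : Set ℝ) (w β ω : ℝ) : Prop := β ∈ T ∧ ω ∈ T ∧ β ≤ ω ∧ ω ≤ β + w

/-- The block is served by one of its points, or each of its points has the nominal gain. -/
def Srv (T : Set ℝ) (A : ℝ → ℝ → Prop) (R r u a β ω c σ : ℝ) : Prop :=
  (∃ y ∈ T, β ≤ y ∧ y ≤ ω ∧ A (y - R) (c + (r - u) + σ)) ∨
    ∀ x ∈ T, β ≤ x → x ≤ ω → A (x - R) (c + (2 * a - r - u) + min (x - β) (r - u))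

variable {T S : Set ℝ} {M : ℝ → ℝ} {A : ℝ → ℝ → Prop} {R r u a b K : ℝ}

namespace Ctx

theorem srv_dn (C : Ctx T S M A R r u a b K) {β ω c σ c' σ' : ℝ} (h : Srv T A R r u a β ω c σ)
    (hc : c' ≤ c) (hσ : σ' ≤ σ) : Srv T A R r u a β ω c' σ' := by
  rcases h with ⟨y, h1, h2, h3, h4⟩ | h
  · exact Or.inl ⟨y, h1, h2, h3, C.dn _ _ _ h4 (by linarith)⟩
  · exact Or.inr fun x h1 h2 h3 => C.dn _ _ _ (h x h1 h2 h3) (by linarith)

/-- The last point of a block to the left of `t`. -/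
theorem last (C : Ctx T S M A R r u a b K) {β ω w t : ℝ} (B : Blk T w β ω) (h1 : β ≤ t)
    (h2 : t ≤ ω) : ∃ y ∈ T, β ≤ y ∧ y ≤ t ∧ M ω - M β ≤ ω - t + (y - β) := by
  obtain ⟨y, y1, y2, y3⟩ := C.hi t β B.1 h1
  have y4 := y3 β B.1 h1
  have := C.free y t fun x hx h => by
    by_contra hc
    linarith [y3 x hx (not_le.1 hc).le]
  exact ⟨y, y1, y4, y2, by linarith [C.lip _ _ h2, C.lip _ _ y4]⟩

/-- The first point of a block to the right of `t`. -/
theorem first (C : Ctx T S M A R r u a b K) {β ω w t : ℝ} (B : Blk T w β ω) (h1 : β ≤ t)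
    (h2 : t ≤ ω) : ∃ y ∈ T, t ≤ y ∧ y ≤ ω ∧ M ω - M β ≤ t - β + (ω - y) := by
  obtain ⟨y, y1, y2, y3⟩ := C.lo t ω B.2.1 h2
  have y4 := y3 ω B.2.1 h2
  have := C.free t y fun x hx h => y3 x hx h.le
  exact ⟨y, y1, y2, y4, by linarith [C.lip _ _ h1, C.lip _ _ y4]⟩

theorem rep (C : Ctx T S M A R r u a b K) {β ω : ℝ} (B : Blk T (R - r) β ω) :
    ∃ x ∈ T, β ≤ x ∧ x ≤ ω ∧
      M ω - M β ≤ 2 * a - 2 * r + min (x - β) (r - u) + min (ω - x) (r - u) := by
  have l1 := C.lip _ _ B.2.2.1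
  have := C.ur
  have := C.ra
  rcases le_total (β + (r - u)) ω with h | h
  · obtain ⟨y, y1, y2, y3, y4⟩ := C.first B (by linarith) h
    refine ⟨y, y1, by linarith, y3, ?_⟩
    rw [min_eq_right (by linarith)]
    rcases le_total (ω - y) (r - u) with h1 | h1
    · rw [min_eq_left h1]; linarith
    · rw [min_eq_right h1]; linarith [B.2.2.2, C.au]
  · refine ⟨β, B.1, le_rfl, B.2.2.1, ?_⟩
    rw [min_eq_left (by linarith), min_eq_left (by linarith)]
    linarith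

/-- Service from the right, the rest of the selection being fixed. -/
theorem os (C : Ctx T S M A R r u a b K) {β ω p v s : ℝ} (B : Blk T (R - r) β ω)
    (hp : ω + R ≤ p) (h : A p v) (hs : s ≤ p - u)
    (hS : ∀ x ∈ S, β + R + r ≤ x → x < s → x < p - r) :
    Srv T A R r u a β ω (v - (p - u - s) - (M s - M (β + R + r)))
      (M ω - M β + (R - r) - (ω - β)) := by
  have := C.u0
  have := C.ur
  by_cases hz : ∃ z ∈ S, β + R + r ≤ z ∧ z ≤ ω + R + r ∧ z ≤ p - r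
  · obtain ⟨z, z1, z2, z3, z4⟩ := hz
    obtain ⟨y, y1, y2, y3, y4⟩ := C.last B (t := z - R - r) (by linarith) (by linarith)
    have a1 := C.S2 z z1 p v s (by linarith) h hs fun x hx h1 h2 => hS x hx (by linarith) h2
    have a2 := C.T1 y y1 _ _ (by linarith) a1
    have a3 : M (β + R + r) ≤ M (z + 2 * r) := C.mono (by linarith)
    exact Or.inl ⟨y, y1, y2, by linarith, C.dn _ _ _ a2 (by linarith [C.ab])⟩
  · refine Or.inr fun x x1 x2 x3 => ?_
    have a1 := C.T2 x x1 p v (β + R + r) (x + R + r - min (x - β) (r - u)) s (by linarith) h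
      (by linarith [min_le_right (x - β) (r - u)]) (by linarith [min_le_left (x - β) (r - u)]) hs
      fun z hz1 h1 h2 => by
        have h3 := hS z hz1 h1.le h2
        refine ⟨?_, h3⟩
        by_contra hc
        exact hz ⟨z, hz1, h1.le, by linarith [not_lt.1 hc], h3.le⟩
    exact C.dn _ _ _ a1 (by linarith)

/-- Service from the left. -/
theorem ls (C : Ctx T S M A R r u a b K) {β ω c : ℝ} (B : Blk T (R - r) β ω)
    (h : Srv T A R r u a β ω c (M ω - M β)) (t : ℝ) :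
    (∃ p v s, β - R ≤ p ∧ s ≤ p - u ∧ s ≤ ω - R - r ∧ (∀ x ∈ S, t ≤ x → x < s → x < p - r) ∧
      A p v ∧ c + (M ω - M β) ≤ v - (p - u - s)) ∨
    ∃ z ∈ S, t ≤ z ∧ z ≤ ω - R - r ∧ A (z - r) (c + (M ω - M β) + (r - u)) := by
  have := C.u0
  have := C.ur
  rcases h with ⟨y, y1, y2, y3, y4⟩ | h
  · exact Or.inl ⟨y - R, _, y - R - r, by linarith, by linarith, by linarith,
      fun x _ _ h => h, y4, by linarith⟩
  by_cases hz : ∃ z ∈ S, t ≤ z ∧ β - R - r ≤ z ∧ z ≤ ω - R - r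
  · obtain ⟨z, z1, z2, z3, z4⟩ := hz
    obtain ⟨y, y1, y2, y3, y4⟩ := C.first B (t := z + R + r) (by linarith) (by linarith)
    have a1 := C.S1 z z1 _ _ (by linarith) (h y y1 (by linarith) y3)
    have a2 : 0 ≤ min (y - β) (r - u) := le_min (by linarith) (by linarith)
    exact Or.inr ⟨z, z1, z2, z4, C.dn _ _ _ a1 (by linarith [C.ab, B.2.2.2])⟩
  · obtain ⟨x, x1, x2, x3, x4⟩ := C.rep B
    refine Or.inl ⟨x - R, _, x - R - r + min (ω - x) (r - u), by linarith,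
      by linarith [min_le_right (ω - x) (r - u)], by linarith [min_le_left (ω - x) (r - u)],
      fun z z1 z2 z3 => ?_, h x x1 x2 x3, by linarith⟩
    by_contra hc
    exact hz ⟨z, z1, z2, by linarith [not_lt.1 hc], by linarith [min_le_left (ω - x) (r - u)]⟩

/-- One step along a chain of blocks. -/
theorem st (C : Ctx T S M A R r u a b K) {β ω β' ω' c : ℝ} (B : Blk T (R - r) β ω)
    (B' : Blk T (R - r) β' ω') (hβ : ω + 2 * R ≤ β')
    (h : Srv T A R r u a β' ω' c (M ω' - M β')) :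
    Srv T A R r u a β ω (c + (M ω' - M β') - (M (ω' - R - r) - M (β + R + r)))
      (M ω - M β + (R - r) - (ω - β)) := by
  have := C.u0
  have := C.ur
  rcases C.ls B' h (β + R + r) with ⟨p, v, s, p1, p2, p3, p4, p5, p6⟩ | ⟨z, z1, z2, z3, z4⟩
  · exact C.srv_dn (C.os B (by linarith) p5 p2 p4) (by linarith [C.mono p3]) le_rfl
  rcases le_total (ω + R + r) z with hz | hz
  · have a1 : M (z - r - r) ≤ M (ω' - R - r) := C.mono (by linarith)
    exact C.srv_dn (C.os B (s := z - r - r) (by linarith) z4 (by linarith) fun x _ _ h => h)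
      (by linarith) le_rfl
  · obtain ⟨y, y1, y2, y3, y4⟩ := C.last B (t := z - R - r) (by linarith) (by linarith)
    have a1 := C.T1 y y1 _ _ (by linarith) z4
    have a2 : M (β + R + r) ≤ M (ω' - R - r) := C.mono (by linarith)
    exact Or.inl ⟨y, y1, y2, by linarith, C.dn _ _ _ a1 (by linarith [C.Ra])⟩

end Ctx

/-- The invariant of the two chains. -/
def Inv (T : Set ℝ) (M : ℝ → ℝ) (A : ℝ → ℝ → Prop) (R r u a β ω : ℝ) : Prop :=
  Srv T A R r u a β ω 0 (M ω - M β) ∨ ∃ β' ω' c c', Blk T (R - r) β' ω' ∧ β + R + r ≤ β' ∧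
    ω' ≤ β + 2 * R ∧ Srv T A R r u a β ω c (M ω - M β) ∧ Srv T A R r u a β' ω' c' (M ω' - M β') ∧
    -(M ω' - M β') ≤ c + c'

namespace Ctx

/-- One of the two chains is good. -/
theorem tc (C : Ctx T S M A R r u a b K) {Φ : ℝ → Prop} {t t₁ : ℝ}
    (dn : ∀ c c', Φ c → c' ≤ c → Φ c') (h0 : (∀ x ∈ T, x < t) → Φ (M t₁ - M t))
    (h1 : ∀ β ω c, Blk T (R - r) β ω → t ≤ β → Srv T A R r u a β ω c (M ω - M β) →
      Φ (c + (M ω - M β) - (M (ω - R - r) - M t₁)))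
    (ih : ∀ β ω, Blk T (R - r) β ω → t ≤ β → Inv T M A R r u a β ω) : Φ (M t₁ - M t) := by
  have := C.u0
  have := C.ur
  have := C.rR
  by_cases hx : ∀ x ∈ T, x < t
  · exact h0 hx
  push Not at hx
  obtain ⟨x, x1, x2⟩ := hx
  obtain ⟨φ, f1, f2, f3⟩ := C.lo t x x1 x2
  obtain ⟨ω, w1, w2, w3⟩ := C.hi (φ + (R - r)) φ f1 (by linarith)
  have w4 := w3 φ f1 (by linarith)
  have B : Blk T (R - r) φ ω := ⟨f1, w1, w4, w2⟩
  have m1 : M φ ≤ M t := C.free _ _ fun z hz h => f3 z hz h.le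
  have m2 : M (φ + (R - r)) ≤ M ω := C.free _ _ fun z hz h => by
    by_contra hc
    linarith [w3 z hz (not_le.1 hc).le]
  have m3 : M (ω - R - r) ≤ M φ := C.mono (by linarith)
  have m4 := C.mono w4
  rcases ih φ ω B f2 with h | ⟨β', ω', c, c', B', b1, b2, s1, s2, hc⟩
  · exact dn _ _ (h1 _ _ _ B f2 h) (by linarith)
  have m5 : M (ω' - R - r) ≤ M (φ + (R - r)) := C.mono (by linarith)
  rcases le_total 0 (c + (M ω - M φ)) with h | h
  · exact dn _ _ (h1 _ _ _ B f2 s1) (by linarith)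
  · exact dn _ _ (h1 _ _ _ B' (by linarith) s2) (by linarith)

theorem cp (C : Ctx T S M A R r u a b K) {β ω t : ℝ} (B : Blk T (R - r) β ω) (ht : ω + 2 * R ≤ t)
    (ih : ∀ β ω, Blk T (R - r) β ω → t ≤ β → Inv T M A R r u a β ω) :
    Srv T A R r u a β ω (M (β + R + r) - M t) (M ω - M β + (R - r) - (ω - β)) := by
  have := C.u0
  have := C.ur
  have := C.R0
  refine C.tc (Φ := fun c => Srv T A R r u a β ω c (M ω - M β + (R - r) - (ω - β)))
    (fun _ _ h hc => C.srv_dn h hc le_rfl) (fun h => ?_)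
    (fun β' ω' c B' h1 h2 => C.st B B' (by linarith) h2) ih
  have k := C.TK ω B.2.1
  have a1 := C.os B (p := K + R + r + 1) (s := K + R + r + 1 - u) (by linarith)
    (C.base _ (by linarith)) le_rfl fun x hx _ _ => by linarith [C.SK x hx]
  have a2 : M (K + R + r + 1 - u) ≤ M t := C.free _ _ fun z hz h' => absurd (h z hz) (by linarith)
  exact C.srv_dn a1 (by linarith) le_rfl

theorem step (C : Ctx T S M A R r u a b K) {β ω : ℝ} (B : Blk T (R - r) β ω)
    (ih : ∀ β' ω', Blk T (R - r) β' ω' → β + R + r ≤ β' → Inv T M A R r u a β' ω') :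
    Inv T M A R r u a β ω := by
  have := C.u0
  have := C.ur
  have := C.rR
  have := C.Ra
  have b3 := B.2.2.1
  have b4 := B.2.2.2
  by_cases hx : ∃ φ ∈ T, β + 2 * R ≤ φ ∧ φ ≤ β + 3 * R - r
  · obtain ⟨φ, f1, f2, f3⟩ := hx
    have a1 := C.cp (t := φ + 2 * R) ⟨f1, f1, le_rfl, by linarith⟩ le_rfl
      fun β' ω' B' h => ih β' ω' B' (by linarith)
    have a2 := C.lip (φ + R + r) (φ + 2 * R) (by linarith)
    have a3 : A (φ - R) (R - 2 * a - u) := by
      rcases a1 with ⟨y, -, y2, y3, y4⟩ | h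
      · rw [le_antisymm y3 y2] at y4
        exact C.dn _ _ _ y4 (by linarith)
      · refine C.dn _ _ _ (h φ f1 le_rfl le_rfl) ?_
        rw [sub_self, min_eq_left (by linarith)]
        linarith
    rcases le_total (φ - 2 * R) ω with h | h
    · obtain ⟨y, y1, y2, y3, y4⟩ := C.last B (t := φ - 2 * R) (by linarith) h
      exact Or.inl (Or.inl ⟨y, y1, y2, by linarith,
        C.dn _ _ _ (C.T1 y y1 _ _ (by linarith) a3) (by linarith)⟩)
    · exact Or.inl (Or.inl ⟨ω, B.2.1, b3, le_rfl,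
        C.dn _ _ _ (C.T1 ω B.2.1 _ _ (by linarith) a3) (by linarith [C.lip _ _ b3])⟩)
  push Not at hx
  have a1 := C.cp (t := β + 3 * R - r) B (by linarith) fun β' ω' B' h => ih β' ω' B' (by linarith)
  by_cases hy : ∃ y ∈ T, β + R + r ≤ y ∧ y ≤ β + 2 * R
  swap
  · push Not at hy
    have a2 : M (β + 3 * R - r) ≤ M (β + R + r) := C.free _ _ fun z hz h =>
      (hx z hz (hy z hz h.le).le).le
    exact Or.inl (C.srv_dn a1 (by linarith) (by linarith))
  obtain ⟨y, y1, y2, y3⟩ := hy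
  obtain ⟨β', c1, c2, c3⟩ := C.lo _ y y1 y2
  obtain ⟨ω', d1, d2, d3⟩ := C.hi _ y y1 y3
  have B' : Blk T (R - r) β' ω' := ⟨c1, d1, (c3 y y1 y2).trans (d3 y y1 y3), by linarith⟩
  have m1 : M β' ≤ M (β + R + r) := C.free _ _ fun z hz h => c3 z hz h.le
  have m2 : M (β + 3 * R - r) ≤ M ω' := C.free _ _ fun z hz h => by
    refine (hx z hz ?_).le
    by_contra hc
    linarith [d3 z hz (not_le.1 hc).le]
  rcases ih β' ω' B' c2 with h | ⟨β'', ω'', c, c', B'', e1, e2, s1, s2, hc⟩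
  · exact Or.inr ⟨β', ω', -(M ω' - M β'), 0, B', c2, d2, C.srv_dn a1 (by linarith) (by linarith),
      h, by linarith⟩
  have a2 := C.st B B'' (by linarith [hx β'' B''.1 (by linarith)]) s2
  have m3 : M (ω'' - R - r) ≤ M (β + 3 * R - r) := C.mono (by linarith [B'.2.2.1])
  exact Or.inr ⟨β', ω', c' + (M ω'' - M β'') - (M ω' - M β'), c, B', c2, d2,
    C.srv_dn a2 (by linarith) (by linarith), s1, by linarith⟩

theorem inv (C : Ctx T S M A R r u a b K) (n : ℕ) :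
    ∀ β ω, Blk T (R - r) β ω → K - n * R < β → Inv T M A R r u a β ω := by
  induction n with
  | zero => exact fun β ω B h => absurd (C.TK β B.1) (by simpa using h)
  | succ n ih =>
    refine fun β ω B h => C.step B fun β' ω' B' h' => ih β' ω' B' ?_
    push_cast at h
    linarith [C.u0, C.ur]

theorem main (C : Ctx T S M A R r u a b K) {t : ℝ} (ht : M t = 0) :
    ∃ p v s, A p v ∧ s ≤ p - u ∧ (∀ x ∈ S, t ≤ x → x < s → x < p - r) ∧
      M s + (p - u - s) ≤ v := by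
  have := C.u0
  have := C.ur
  refine C.tc (t := t) (t₁ := t) (Φ := fun c => 0 ≤ c → ∃ p v s, A p v ∧ s ≤ p - u ∧
    (∀ x ∈ S, t ≤ x → x < s → x < p - r) ∧ M s + (p - u - s) ≤ v)
    (fun _ _ h hc h0 => h (h0.trans hc)) (fun h _ => ?_) (fun β ω c B _ h h0 => ?_)
    (fun β ω B _ => ?_) (by simp)
  · have a2 : M (K + r + 1 - u) ≤ M t := C.free _ _ fun z hz h' => absurd (h z hz) (by linarith)
    exact ⟨K + r + 1, 0, K + r + 1 - u, C.base _ (by linarith), le_rfl,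
      fun x hx _ _ => by linarith [C.SK x hx], by linarith⟩
  · rcases C.ls B h t with ⟨p, v, s, -, p2, p3, p4, p5, p6⟩ | ⟨z, -, -, z3, z4⟩
    · exact ⟨p, v, s, p5, p2, p4, by linarith [C.mono p3]⟩
    · have a1 : M (z - r - r) ≤ M (ω - R - r) := C.mono (by linarith)
      exact ⟨_, _, z - r - r, z4, by linarith, fun x _ _ h => h, by linarith⟩
  · obtain ⟨n, hn⟩ := exists_nat_gt ((K - β) / R)
    exact C.inv n β ω B (by linarith [(div_lt_iff₀ C.R0).1 hn])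

end Ctx

end Pool.Agent.MP_ebd0f7_an.Dy
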