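import Pool.Agent.MP_ebd0f7_an.RRCore

/-! Radii from an infinite lacunary set: no `c > 4 / 5` is admissible. -/

namespace Pool.Agent.MP_ebd0f7_an.Lac

open Set MeasureTheory

/-- A monotone function of mean slope `d` that grows by the length on a centred interval at every
point. -/
def Cov (L : Set ℝ) (r d K : ℝ) : Prop :=
  ∃ F δ : ℝ → ℝ, Monotone F ∧ (∀ t, |F t - d * t| ≤ K) ∧
    ∀ x, δ x ∈ L ∧ 0 < δ x ∧ δ x ≤ r ∧ 2 * δ x ≤ F (x + δ x) - F (x - δ x)

/-- Clamp to `[0, l]`. -/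
noncomputable def cl (l u : ℝ) : ℝ := max 0 (min u l)

theorem cl_mem {l : ℝ} (hl : 0 ≤ l) (u : ℝ) : 0 ≤ cl l u ∧ cl l u ≤ l :=
  ⟨le_max_left _ _, max_le hl (min_le_right _ _)⟩

theorem cl_lo {l u : ℝ} (hu : u ≤ 0) : cl l u = 0 := max_eq_left ((min_le_left _ _).trans hu)

theorem cl_hi {l u : ℝ} (hl : 0 ≤ l) (hu : l ≤ u) : cl l u = l := by
  rw [cl, min_eq_right hu, max_eq_right hl]

theorem cl_lip (l : ℝ) {u v : ℝ} (h : u ≤ v) : cl l v - cl l u ≤ v - u := by
  simp only [cl, max_def, min_def]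
  split_ifs <;> linarith

/-- Length of the flat pieces `[r, R / 2 - r] + (3 R / 2) ℤ` passed at time `t`. -/
noncomputable def ps (R r t : ℝ) : ℝ :=
  (R / 2 - 2 * r) * ⌊t / (3 * R / 2)⌋ + cl (R / 2 - 2 * r) (t - ⌊t / (3 * R / 2)⌋ * (3 * R / 2) - r)

theorem fl {Q : ℝ} (hQ : 0 < Q) (t : ℝ) : ⌊t / Q⌋ * Q ≤ t ∧ t < ⌊t / Q⌋ * Q + Q := by
  have h1 := (le_div_iff₀ hQ).1 (Int.floor_le (t / Q))
  have h2 := (div_lt_iff₀ hQ).1 (Int.lt_floor_add_one (t / Q))
  exact ⟨h1, by linarith⟩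

section
variable {R r : ℝ} (hR : 0 < R) (hr : 0 ≤ r) (h4 : 4 * r ≤ R)
include hR hr h4

theorem ps_loc (n : ℤ) {t : ℝ} (h1 : n * (3 * R / 2) - R - r ≤ t)
    (h2 : t ≤ n * (3 * R / 2) + 3 * R / 2 + r) :
    ps R r t = (R / 2 - 2 * r) * n + cl (R / 2 - 2 * r) (t - n * (3 * R / 2) - r) := by
  have hQ : 0 < 3 * R / 2 := by linarith
  have a1 : n - 1 ≤ ⌊t / (3 * R / 2)⌋ := by
    rw [Int.le_floor, le_div_iff₀ hQ]; push_cast; linarith
  have a2 : ⌊t / (3 * R / 2)⌋ < n + 2 := by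
    rw [Int.floor_lt, div_lt_iff₀ hQ]; push_cast; linarith
  obtain ⟨f1, f2⟩ := fl hQ t
  unfold ps
  obtain h | h | h : ⌊t / (3 * R / 2)⌋ = n - 1 ∨ ⌊t / (3 * R / 2)⌋ = n ∨
      ⌊t / (3 * R / 2)⌋ = n + 1 := by omega
  · rw [h] at f1 f2 ⊢
    push_cast at f1 f2 ⊢
    rw [cl_hi (by linarith) (by linarith), cl_lo (by linarith)]
    ring
  · rw [h]
  · rw [h] at f1 f2 ⊢
    push_cast at f1 f2 ⊢
    rw [cl_lo (by linarith), cl_hi (by linarith) (by linarith)]
    ring

theorem ps_lip {a b : ℝ} (h : a ≤ b) : ps R r b - ps R r a ≤ b - a := by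
  have hQ : 0 < 3 * R / 2 := by linarith
  have hl : 0 ≤ R / 2 - 2 * r := by linarith
  obtain ⟨a1, a2⟩ := fl hQ a
  obtain ⟨b1, b2⟩ := fl hQ b
  have m : ⌊a / (3 * R / 2)⌋ ≤ ⌊b / (3 * R / 2)⌋ :=
    Int.floor_mono (div_le_div_of_nonneg_right h hQ.le)
  unfold ps
  generalize ⌊a / (3 * R / 2)⌋ = i at *
  generalize ⌊b / (3 * R / 2)⌋ = j at *
  rcases m.eq_or_lt with rfl | m
  · linarith [cl_lip (R / 2 - 2 * r) (show a - i * (3 * R / 2) - r ≤ b - i * (3 * R / 2) - r by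
      linarith)]
  · have m' : (i : ℝ) + 1 ≤ j := by exact_mod_cast m
    have c1 := cl_lip (R / 2 - 2 * r) (show -r ≤ b - j * (3 * R / 2) - r by linarith)
    have c2 := cl_lip (R / 2 - 2 * r) (show a - i * (3 * R / 2) - r ≤ 3 * R / 2 - r by linarith)
    rw [cl_lo (u := -r) (by linarith)] at c1
    rw [cl_hi (u := 3 * R / 2 - r) hl (by linarith)] at c2
    have c3 := (cl_mem hl (a - i * (3 * R / 2) - r)).1
    have c4 : a - i * (3 * R / 2) - cl (R / 2 - 2 * r) (a - i * (3 * R / 2) - r) ≤ R + 2 * r := by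
      simp only [cl, max_def, min_def]
      split_ifs <;> linarith
    nlinarith [mul_nonneg (show 0 ≤ R + 2 * r by linarith) (show 0 ≤ (j : ℝ) - i - 1 by linarith)]

theorem ps_near (t : ℝ) : |(R / 2 - 2 * r) / (3 * R / 2) * t - ps R r t| ≤ R / 2 := by
  have hQ : 0 < 3 * R / 2 := by linarith
  have hl : 0 ≤ R / 2 - 2 * r := by linarith
  obtain ⟨a1, a2⟩ := fl hQ t
  have f1 := Int.floor_le (t / (3 * R / 2))
  have f2 := Int.lt_floor_add_one (t / (3 * R / 2))
  obtain ⟨c1, c2⟩ := cl_mem hl (t - ⌊t / (3 * R / 2)⌋ * (3 * R / 2) - r)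
  unfold ps
  rw [show (R / 2 - 2 * r) / (3 * R / 2) * t = (R / 2 - 2 * r) * (t / (3 * R / 2)) by ring, abs_le]
  constructor <;> nlinarith

theorem step {L : Set ℝ} {d K : ℝ} (hRL : R ∈ L) (d0 : 0 ≤ d) (d1 : d ≤ 1) (h : Cov L r d K) :
    Cov L R (2 / 3 + d / 6 + (4 * d * r + 2 * K) / (3 * R)) (4 * K + 5 * R) := by
  classical
  obtain ⟨F, δ, hF, hK, hδ⟩ := h
  have K0 : 0 ≤ K := (abs_nonneg _).trans (hK 0)
  have hQ : 0 < 3 * R / 2 := by linarith
  have h3 : 0 < 3 * R := by linarith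
  have hl : 0 ≤ R / 2 - 2 * r := by linarith
  set m := 2 * R - d * (3 * R / 2) + 2 * K with hm
  have m0 : 0 ≤ m := by nlinarith
  have m1 : m ≤ 2 * R + 2 * K := by nlinarith
  have jm : ∀ {a b : ℝ}, a ≤ b → m * ⌊(a - R) / (3 * R)⌋ ≤ m * ⌊(b - R) / (3 * R)⌋ := fun hab =>
    mul_le_mul_of_nonneg_left (by
      exact_mod_cast Int.floor_mono (div_le_div_of_nonneg_right (by linarith) h3.le)) m0
  refine ⟨fun t => F (t - ps R r t) + m * ⌊(t - R) / (3 * R)⌋,
    fun x => if x - ⌊x / (3 * R / 2)⌋ * (3 * R / 2) < R / 2 then R else δ (x - ps R r x),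
    fun a b hab => add_le_add (hF (by linarith [ps_lip hR hr h4 hab])) (jm hab), fun t => ?_,
    fun x => ?_⟩
  · obtain ⟨a1, a2⟩ := abs_le.1 (hK (t - ps R r t))
    obtain ⟨b1, b2⟩ := abs_le.1 (ps_near hR hr h4 t)
    have f1 := Int.floor_le ((t - R) / (3 * R))
    have f2 := Int.lt_floor_add_one ((t - R) / (3 * R))
    have e : (t - R) / (3 * R) = t / (3 * R) - 1 / 3 := by field_simp
    have e2 : (2 / 3 + d / 6 + (4 * d * r + 2 * K) / (3 * R)) * t =
        d * t - d * ((R / 2 - 2 * r) / (3 * R / 2) * t) + m * (t / (3 * R)) := by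
      rw [hm]; field_simp; ring
    rw [e2, abs_le]
    beta_reduce
    generalize (⌊(t - R) / (3 * R)⌋ : ℝ) = j at *
    rw [e] at f1 f2
    generalize t / (3 * R) = w at *
    generalize (R / 2 - 2 * r) / (3 * R / 2) * t = z at *
    have c1 : m * (j - w) ≤ 0 := mul_nonpos_of_nonneg_of_nonpos m0 (by linarith)
    have c2 : m * (-(4 / 3)) ≤ m * (j - w) := mul_le_mul_of_nonneg_left (by linarith) m0
    have c3 : d * (z - ps R r t) ≤ R / 2 := by nlinarith
    have c4 : -(R / 2) ≤ d * (z - ps R r t) := by nlinarith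
    constructor <;> nlinarith
  · obtain ⟨f1, f2⟩ := fl hQ x
    beta_reduce
    generalize ⌊x / (3 * R / 2)⌋ = k at *
    split_ifs with hx
    · refine ⟨hRL, hR, le_rfl, ?_⟩
      have a1 := ps_loc hR hr h4 k (t := x + R) (by linarith) (by linarith)
      have a2 := ps_loc hR hr h4 k (t := x - R) (by linarith) (by linarith)
      have a3 := (cl_mem hl (x + R - k * (3 * R / 2) - r)).2
      have a4 := (cl_mem hl (x - R - k * (3 * R / 2) - r)).1
      have b1 := (abs_le.1 (hK (x + R - ps R r (x + R)))).1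
      have b2 := (abs_le.1 (hK (x - R - ps R r (x - R)))).2
      have c : ⌊(x - R - R) / (3 * R)⌋ + 1 ≤ ⌊(x + R - R) / (3 * R)⌋ := by
        obtain ⟨j, hj⟩ := Int.even_or_odd' k
        refine le_trans (b := j) (Int.add_one_le_iff.2 ?_) ?_
        · rw [Int.floor_lt, div_lt_iff₀ h3]
          rcases hj with rfl | rfl <;> push_cast at hx <;> linarith
        · rw [Int.le_floor, le_div_iff₀ h3]
          rcases hj with rfl | rfl <;> push_cast at f1 <;> linarith
      have c' : (⌊(x - R - R) / (3 * R)⌋ : ℝ) + 1 ≤ ⌊(x + R - R) / (3 * R)⌋ := by exact_mod_cast c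
      have c2 := mul_le_mul_of_nonneg_left c' m0
      have c3 : d * (3 * R / 2) ≤ d * (x + R - ps R r (x + R) - (x - R - ps R r (x - R))) :=
        mul_le_mul_of_nonneg_left (by linarith) d0
      linarith
    · obtain ⟨g1, g2, g3, g4⟩ := hδ (x - ps R r x)
      refine ⟨g1, g2, by linarith, ?_⟩
      have hx' := not_lt.1 hx
      generalize δ (x - ps R r x) = s at *
      have a0 := ps_loc hR hr h4 k (t := x) (by linarith) (by linarith)
      have a1 := ps_loc hR hr h4 k (t := x + s) (by linarith) (by linarith)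
      have a2 := ps_loc hR hr h4 k (t := x - s) (by linarith) (by linarith)
      rw [cl_hi hl (by linarith)] at a0 a1 a2
      have c := jm (show x - s ≤ x + s by linarith)
      rw [show x + s - ps R r (x + s) = x - ps R r x + s by linarith,
        show x - s - ps R r (x - s) = x - ps R r x - s by linarith]
      linarith

end

theorem chain {L : Set ℝ} (hp : ∀ x ∈ L, 0 < x) (n : ℕ) : ∃ κ ρ : ℝ, 0 ≤ κ ∧ ∀ r : ℕ → ℝ,
    (∀ i ≤ n, r i ∈ L) → (∀ i < n, ρ * r i ≤ r (i + 1)) →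
    ∃ d, 0 ≤ d ∧ d ≤ 4 / 5 + 1 / 5 * (1 / 2) ^ n ∧ Cov L (r n) d (κ * r n) := by
  induction n with
  | zero =>
    refine ⟨0, 0, le_rfl, fun r h _ => ⟨1, zero_le_one, by norm_num, fun t => t, fun _ => r 0,
      monotone_id, by simp, fun x => ⟨h 0 le_rfl, hp _ (h 0 le_rfl), le_rfl, by linarith⟩⟩⟩
  | succ n ih =>
    obtain ⟨κ, ρ, κ0, ih⟩ := ih
    set b : ℝ := 1 / 5 * (1 / 2) ^ n with hb
    have b0 : 0 < b := by positivity
    have b1 : b ≤ 1 / 5 := by
      have : (1 / 2 : ℝ) ^ n ≤ 1 := pow_le_one₀ (by norm_num) (by norm_num)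
      linarith
    refine ⟨4 * κ + 5, max (max ρ 4) ((4 + 2 * κ) / b), by linarith, fun r h1 h2 => ?_⟩
    obtain ⟨d, d0, d1, hc⟩ := ih r (fun i hi => h1 i (by omega)) fun i hi =>
      (mul_le_mul_of_nonneg_right ((le_max_left _ _).trans (le_max_left _ _))
        (hp _ (h1 i (by omega))).le).trans (h2 i (by omega))
    have r0 := hp _ (h1 n (by omega))
    have R0 := hp _ (h1 (n + 1) le_rfl)
    have a1 : 4 * r n ≤ r (n + 1) := (mul_le_mul_of_nonneg_right
      ((le_max_right _ _).trans (le_max_left _ _)) r0.le).trans (h2 n (by omega))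
    have a2 : (4 + 2 * κ) / b * r n ≤ r (n + 1) :=
      (mul_le_mul_of_nonneg_right (le_max_right _ _) r0.le).trans (h2 n (by omega))
    rw [div_mul_eq_mul_div, div_le_iff₀ b0] at a2
    obtain ⟨F, δ, f1, f2, f3⟩ := step R0 r0.le a1 (h1 _ le_rfl) d0 (by linarith) hc
    have a3 : (4 * d * r n + 2 * (κ * r n)) / (3 * r (n + 1)) ≤ b / 3 := by
      rw [div_le_iff₀ (by linarith)]
      nlinarith
    refine ⟨_, by positivity, ?_, F, δ, f1, fun t => (f2 t).trans ?_, f3⟩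
    · rw [pow_succ]; linarith
    · nlinarith [mul_nonneg κ0 r0.le]

theorem sum_le {ι : Type*} {G : ℝ → ℝ} (hG : Monotone G) (l r : ι → ℝ) {a : ℝ} (F : Finset ι) :
    ∀ b, a ≤ b → (∀ x ∈ F, a ≤ l x ∧ l x < r x ∧ r x ≤ b) →
    (∀ x ∈ F, ∀ y ∈ F, x ≠ y → r x ≤ l y ∨ r y ≤ l x) →
    ∑ x ∈ F, (G (r x) - G (l x)) ≤ G b - G a := by
  classical
  induction F using Finset.induction_on_max_value l with
  | empty => intro b hb _ _; simpa using hG hb
  | insert x F hx hm ih =>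
    intro b _ h1 h2
    obtain ⟨x1, x2, x3⟩ := h1 x (Finset.mem_insert_self _ _)
    have := ih (l x) x1 (fun y hy => ?_) fun y hy z hz =>
      h2 y (Finset.mem_insert_of_mem hy) z (Finset.mem_insert_of_mem hz)
    · rw [Finset.sum_insert hx]
      linarith [hG x3]
    · obtain ⟨y1, y2, -⟩ := h1 y (Finset.mem_insert_of_mem hy)
      refine ⟨y1, y2, ?_⟩
      rcases h2 y (Finset.mem_insert_of_mem hy) x (Finset.mem_insert_self _ _)
        (fun e => hx (e ▸ hy)) with h | h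
      · exact h
      · linarith [hm y hy]

theorem Cov.le {L : Set ℝ} {r d K c : ℝ} (h : Cov L r d K)
    (hc : c ∈ Adm fun E δ => ∀ x ∈ E, δ x ∈ L) : c ≤ d := by
  obtain ⟨F, δ, hF, hK, hδ⟩ := h
  have r0 : 0 < r := (hδ 0).2.1.trans_le (hδ 0).2.2.1
  have key : ∀ N : ℝ, 0 ≤ N → c * N ≤ d * (N + 2 * r) + 2 * K := by
    intro N hN
    obtain ⟨T, hT, -, hd, h⟩ := hc (Icc 0 N) δ isCompact_Icc (fun x _ => (hδ x).2.1)
      fun x _ => (hδ x).1
    have a0 : F (-r) ≤ F (N + r) := hF (by linarith)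
    have a1 : ∑' x : T, volume (Ioo (x - δ x) (x + δ x) : Set ℝ) ≤
        ENNReal.ofReal (F (N + r) - F (-r)) := by
      rw [ENNReal.tsum_eq_iSup_sum]
      refine iSup_le fun s => ?_
      simp only [vol_I]
      rw [← ENNReal.ofReal_sum_of_nonneg fun x _ => by linarith [(hδ x).2.1]]
      refine ENNReal.ofReal_le_ofReal ((Finset.sum_le_sum fun (x : T) _ => (hδ x).2.2.2).trans
        (sum_le hF (fun x : T => x - δ x) (fun x : T => x + δ x) s _ (by linarith)
          (fun x _ => ?_) fun x _ y _ hxy => ?_))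
      · obtain ⟨-, g1, g2, -⟩ := hδ x
        obtain ⟨g3, g4⟩ := hT x.2
        exact ⟨by linarith, by linarith, by linarith⟩
      · have g := hd x.2 y.2 fun e => hxy (Subtype.ext e)
        have gx := (hδ x).2.1
        have gy := (hδ y).2.1
        rw [Function.onFun, Set.Ioo_disjoint_Ioo, min_le_iff, le_max_iff, le_max_iff] at g
        rcases g with (g | g) | (g | g)
        · linarith
        · exact Or.inl g
        · exact Or.inr g
        · linarith
    have a2 := h.trans a1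
    rw [Real.volume_Icc, sub_zero, mul_comm, ← ENNReal.ofReal_mul hN,
      ENNReal.ofReal_le_ofReal_iff (by linarith)] at a2
    linarith [(abs_le.1 (hK (N + r))).2, (abs_le.1 (hK (-r))).1]
  by_contra hq
  have hq' : 0 < c - d := by linarith [not_le.1 hq]
  have := key ((|d * (2 * r) + 2 * K| + 1) / (c - d)) (by positivity)
  have e := div_mul_cancel₀ (|d * (2 * r) + 2 * K| + 1) hq'.ne'
  nlinarith [le_abs_self (d * (2 * r) + 2 * K)]

theorem le_lac {L : Set ℝ} {ρ c : ℝ} (hp : ∀ x ∈ L, 0 < x) (hi : L.Infinite) (hρ : 1 < ρ)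
    (hL : ∀ x ∈ L, ∀ y ∈ L, x < y → ρ * x ≤ y) (hc : c ∈ Adm fun E δ => ∀ x ∈ E, δ x ∈ L) :
    c ≤ 4 / 5 := by
  refine le_of_forall_pos_le_add fun ε hε => ?_
  obtain ⟨n, hn⟩ := exists_pow_lt_of_lt_one hε (show (1 / 2 : ℝ) < 1 by norm_num)
  obtain ⟨κ, σ, -, h⟩ := chain hp n
  obtain ⟨m, hm⟩ := pow_unbounded_of_one_lt σ hρ
  obtain ⟨S, hS, hcard⟩ := hi.exists_subset_card_eq (n * m + 1)
  set s : ℕ → ℝ := fun i => if hi : i < n * m + 1 then S.orderEmbOfFin hcard ⟨i, hi⟩ else 0 with hs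
  have s1 : ∀ i, i < n * m + 1 → s i ∈ L := fun i hi => by
    simp only [hs, dif_pos hi]
    exact hS (S.orderEmbOfFin_mem hcard _)
  have s2 : ∀ i j, i + j < n * m + 1 → ρ ^ j * s i ≤ s (i + j) := by
    intro i j
    induction j with
    | zero => simp
    | succ j ih =>
      intro hj
      have a1 : s (i + j) < s (i + (j + 1)) := by
        simp only [hs, dif_pos hj, dif_pos (show i + j < n * m + 1 by omega)]
        exact (S.orderEmbOfFin hcard).strictMono (by simp)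
      have a2 := hL _ (s1 _ (by omega)) _ (s1 _ hj) a1
      have a3 := ih (by omega)
      rw [pow_succ]
      nlinarith
  obtain ⟨d, -, d1, hd⟩ := h (fun i => s (i * m))
    (fun i hi => s1 _ (Nat.lt_succ_of_le (Nat.mul_le_mul_right m hi))) fun i hi => by
      have a1 : i * m + m < n * m + 1 := by
        have := Nat.mul_le_mul_right m (show i + 1 ≤ n from hi)
        rw [Nat.succ_mul] at this
        omega
      have a2 := s2 _ _ a1
      have a3 := hp _ (s1 (i * m) (by omega))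
      simp only [Nat.succ_mul]
      nlinarith
  have := hd.le hc
  have : (0 : ℝ) < (1 / 2) ^ n := by positivity
  linarith

end Pool.Agent.MP_ebd0f7_an.Lac
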