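import Pool.Agent.MP_ebd0f7_an.DyLevel
import Pool.Agent.MP_ebd0f7_an.LacEx
import Mathlib.MeasureTheory.Measure.Haar.Unique

/-! The two-valued example, and attainment for radii closed under doubling. -/

namespace Pool.Agent.MP_ebd0f7_an.Dy

open Set MeasureTheory

theorem le_pair {L : Set ℝ} {a b m c : ℝ} (ha : a ∈ L) (hb : b ∈ L) (a0 : 0 < a) (hab : a ≤ b)
    (m1 : 2 * a ≤ m) (m2 : b ≤ m) (hc : c ∈ Adm fun E δ => ∀ x ∈ E, δ x ∈ L) :
    c ≤ m / (a + b) := by
  have Q0 : 0 < a + b := by linarith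
  have m0 : 0 ≤ m := by linarith
  have up : ∀ (n : ℤ) (t : ℝ), n * (a + b) ≤ t → (n : ℝ) ≤ ⌊t / (a + b)⌋ := fun n t h => by
    exact_mod_cast Int.le_floor.2 ((le_div_iff₀ Q0).2 h)
  have dn : ∀ (n : ℤ) (t : ℝ), t < n * (a + b) → (⌊t / (a + b)⌋ : ℝ) + 1 ≤ n := fun n t h => by
    exact_mod_cast Int.floor_lt.2 ((div_lt_iff₀ Q0).2 h)
  refine Lac.Cov.le (r := b) (K := m) ⟨fun t => m * ⌊t / (a + b)⌋, fun x =>
    if a ≤ x - ⌊x / (a + b)⌋ * (a + b) ∧ x - ⌊x / (a + b)⌋ * (a + b) < b then b else a,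
    fun s t h => mul_le_mul_of_nonneg_left
      (by exact_mod_cast Int.floor_mono (div_le_div_of_nonneg_right h Q0.le)) m0,
    fun t => ?_, fun x => ?_⟩ hc
  · have h1 := Int.floor_le (t / (a + b))
    have h2 := Int.lt_floor_add_one (t / (a + b))
    rw [div_mul_eq_mul_div, mul_div_assoc, abs_le]
    constructor <;> nlinarith
  obtain ⟨h1, h2⟩ := Lac.fl Q0 x
  set n := ⌊x / (a + b)⌋ with hn
  beta_reduce
  split_ifs with h
  · have a1 := up (n + 1) (x + b) (by push_cast; linarith [h.1])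
    have a2 := dn n (x - b) (by linarith [h.2])
    push_cast at a1
    exact ⟨hb, by linarith, le_rfl, by nlinarith⟩
  · refine ⟨ha, a0, hab, ?_⟩
    rcases not_and_or.1 h with h | h
    · have a1 := up n (x + a) (by linarith)
      have a2 := dn n (x - a) (by linarith [not_le.1 h])
      nlinarith
    · have a1 := up (n + 1) (x + a) (by push_cast; linarith [not_lt.1 h])
      have a2 := dn (n + 1) (x - a) (by push_cast; linarith)
      nlinarith

theorem good_dbl {L : Set ℝ} (hL : ∀ x ∈ L, ∀ y ∈ L, x < y → x ≤ 1 / 2 * y)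
    (h2 : ∀ x ∈ L, 2 * x ∈ L) {E : Set ℝ} {δ : ℝ → ℝ} (hE : IsCompact E)
    (hp : ∀ x ∈ E, 0 < δ x) (h : ∀ x ∈ E, δ x ∈ L) : Good (2 / 3) E δ := by
  classical
  have hf : volume E ≠ ⊤ := hE.measure_lt_top.ne
  by_contra hn
  set V := (volume E).toReal with hV
  have V0 : 0 ≤ V := ENNReal.toReal_nonneg
  have h1 : ∀ F : Finset ℝ, ↑F ⊆ E → Dis δ F → ∑ x ∈ F, 2 * δ x < 2 / 3 * V := fun F hF hd =>
    lt_of_not_ge fun h => hn (good_of hp hf hF hd h)
  have ne : E.Nonempty := by
    by_contra hq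
    have := h1 ∅ (by simp) (sep_empty _ _)
    simp [hV, not_nonempty_iff_eq_empty.1 hq] at this
  obtain ⟨x₀, x1, x2⟩ := hE.exists_isGreatest ne
  set d := δ x₀ with hd
  have d0 : 0 < d := hp x₀ x1
  have h3 : ∀ F : Finset ℝ, ↑F ⊆ E → Dis δ F → (∀ x ∈ F, x + δ x ≤ x₀ - d) →
      ∑ x ∈ F, 2 * δ x + 2 * d < 2 / 3 * V := by
    intro F hF hD hx
    have xn : x₀ ∉ F := fun hq => by linarith [hx x₀ hq]
    have := h1 (insert x₀ F) (by rw [Finset.coe_insert]; exact insert_subset x1 hF)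
      (hD.insert fun y hy => Or.inr (hx y hy))
    rw [Finset.sum_insert xn] at this
    linarith
  set σ : ℝ → ℝ := fun x => 2 * x₀ + d - x with hσ
  set E' := E ∪ Icc x₀ (x₀ + d) ∪ σ ⁻¹' E with hE'
  set δ' : ℝ → ℝ := fun x => if x ≤ x₀ then δ x else if x < x₀ + d then 2 * d else δ (σ x) with hδ'
  have im : σ ⁻¹' E = σ '' E := by
    ext x
    exact ⟨fun hx => ⟨σ x, hx, by simp [hσ]⟩, by rintro ⟨y, hy, rfl⟩; simpa [hσ] using hy⟩
  have kE : IsCompact E' := (hE.union isCompact_Icc).union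
    (im ▸ hE.image (continuous_const.sub continuous_id))
  have mL : ∀ x ∈ E', x ≤ x₀ → x ∈ E := by
    rintro x ((hx | hx) | hx) h4
    · exact hx
    · rwa [le_antisymm h4 hx.1]
    · have := x2 hx
      simp only [hσ] at this
      linarith
  have mR : ∀ x ∈ E', x₀ + d ≤ x → σ x ∈ E := by
    rintro x ((hx | hx) | hx) h4
    · linarith [x2 hx]
    · rwa [show σ x = x₀ by simp only [hσ]; linarith [hx.2]]
    · exact hx
  have dL : ∀ x, x ≤ x₀ → δ' x = δ x := fun x hx => if_pos hx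
  have dM : ∀ x, x₀ < x → x < x₀ + d → δ' x = 2 * d := fun x a1 a2 => by
    simp only [hδ', if_neg (not_le.2 a1), if_pos a2]
  have dR : ∀ x, x₀ + d ≤ x → δ' x = δ (σ x) := fun x a1 => by
    simp only [hδ', if_neg (show ¬ x ≤ x₀ by linarith), if_neg (not_lt.2 a1)]
  have all : ∀ x ∈ E', 0 < δ' x ∧ δ' x ∈ L := by
    intro x hx
    rcases le_or_gt x x₀ with a1 | a1
    · rw [dL x a1]; exact ⟨hp _ (mL x hx a1), h _ (mL x hx a1)⟩
    rcases lt_or_ge x (x₀ + d) with a2 | a2
    · rw [dM x a1 a2]; exact ⟨by linarith, h2 _ (h _ x1)⟩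
    · rw [dR x a2]; exact ⟨hp _ (mR x hx a2), h _ (mR x hx a2)⟩
  have vol : 2 * V + d ≤ (volume E').toReal := by
    have mE := hE.measurableSet
    have e1 : volume (σ ⁻¹' E) = volume E :=
      (Measure.measurePreserving_sub_left volume _).measure_preimage mE.nullMeasurableSet
    have e0 : MeasurableSet (σ ⁻¹' E) := mE.preimage (measurable_const.sub measurable_id)
    have e2 : volume (E ∪ Ioo x₀ (x₀ + d) ∪ σ ⁻¹' E) = volume E + ENNReal.ofReal d + volume E := by
      rw [measure_union ?_ e0,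
        measure_union ?_ measurableSet_Ioo, e1, Real.volume_Ioo, add_sub_cancel_left]
      · exact Set.disjoint_left.2 fun x a1 a2 => by linarith [x2 a1, a2.1]
      · refine Set.disjoint_left.2 fun x a1 a2 => ?_
        have := x2 a2
        simp only [hσ] at this
        rcases a1 with a1 | a1
        · linarith [x2 a1]
        · linarith [a1.2]
    have e3 := ENNReal.toReal_mono kE.measure_lt_top.ne (e2.ge.trans (measure_mono
      (union_subset_union_left _ (union_subset_union_right _ Ioo_subset_Icc_self))))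
    rw [ENNReal.toReal_add (by finiteness) hf, ENNReal.toReal_add hf (by finiteness),
      ENNReal.toReal_ofReal d0.le] at e3
    linarith
  have Q0 : 0 < 2 * V + d := by linarith
  obtain ⟨F, f1, f2, f3⟩ := fin_lac (k := 1 / 2) (c := 4 / 3 * V / (2 * V + d)) (by norm_num)
    (by norm_num) hL (by rw [← mul_div_assoc, div_lt_one Q0]; linarith) kE
    (fun x hx => (all x hx).1) fun x hx => (all x hx).2
  have f4 : 4 / 3 * V ≤ ∑ x ∈ F, 2 * δ' x := by
    refine le_trans ?_ f3
    rw [div_mul_eq_mul_div (4 / 3 * V), le_div_iff₀ Q0]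
    nlinarith
  set A := F.filter (· ≤ x₀) with hA
  set B := (F.filter (x₀ + d ≤ ·)).image σ with hB
  set C := F.filter fun x => x₀ < x ∧ x < x₀ + d with hC
  have mB : ∀ x ∈ B, σ x ∈ F ∧ x₀ + d ≤ σ x ∧ δ' (σ x) = δ x := by
    intro x hx
    obtain ⟨y, hy, rfl⟩ := Finset.mem_image.1 hx
    have e : σ (σ y) = y := by simp [hσ]
    rw [Finset.mem_filter] at hy
    rw [e]
    exact ⟨hy.1, hy.2, dR y hy.2⟩
  have a1 : (↑A : Set ℝ) ⊆ E := fun x hx =>
    mL x (f1 (Finset.mem_filter.1 hx).1) (Finset.mem_filter.1 hx).2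
  have b1 : (↑B : Set ℝ) ⊆ E := fun x hx => by
    have := mR _ (f1 (mB x hx).1) (mB x hx).2.1
    simpa [hσ] using this
  have a2 : Dis δ A := fun x hx y hy hxy => by
    rw [Finset.mem_filter] at hx hy
    have := f2 x hx.1 y hy.1 hxy
    simpa only [dL x hx.2, dL y hy.2] using this
  have b2 : Dis δ B := fun x hx y hy hxy => by
    have := f2 _ (mB x hx).1 _ (mB y hy).1 fun e => hxy (by simp only [hσ] at e; linarith)
    simp only [(mB x hx).2.2, (mB y hy).2.2] at this
    simp only [hσ] at this ⊢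
    rcases this with h4 | h4
    · right; linarith
    · left; linarith
  have sm : ∑ x ∈ F, 2 * δ' x = ∑ x ∈ A, 2 * δ x + ∑ x ∈ B, 2 * δ x + C.card * (4 * d) := by
    rw [hB, Finset.sum_image fun x _ y _ e => by simp only [hσ] at e; linarith,
      ← nsmul_eq_mul, ← Finset.sum_const, hA, hC, Finset.sum_filter, Finset.sum_filter,
      Finset.sum_filter, ← Finset.sum_add_distrib, ← Finset.sum_add_distrib]
    refine Finset.sum_congr rfl fun x _ => ?_
    rcases le_or_gt x x₀ with c1 | c1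
    · rw [if_pos c1, if_neg (by linarith), if_neg (fun h => by linarith [h.1]), dL x c1]; ring
    rcases lt_or_ge x (x₀ + d) with c2 | c2
    · rw [if_neg (by linarith), if_neg (by linarith), if_pos ⟨c1, c2⟩, dM x c1 c2]; ring
    · rw [if_neg (by linarith), if_pos c2, if_neg (fun h => by linarith [h.2]), dR x c2]; ring
  rcases C.eq_empty_or_nonempty with hc | ⟨m, hm⟩
  · rw [hc] at sm
    simp only [Finset.card_empty, Nat.cast_zero, zero_mul, add_zero] at sm
    linarith [h1 A a1 a2, h1 B b1 b2]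
  obtain ⟨m0, m1, m2⟩ := Finset.mem_filter.1 hm
  have c1 : C.card ≤ 1 := Finset.card_le_one.2 fun x hx y hy => by
    rw [Finset.mem_filter] at hx hy
    by_contra hxy
    have := f2 x hx.1 y hy.1 hxy
    simp only [dM x hx.2.1 hx.2.2, dM y hy.2.1 hy.2.2] at this
    rcases this with h4 | h4 <;> linarith [hx.2.1, hx.2.2, hy.2.1, hy.2.2]
  have c2 : (C.card : ℝ) ≤ 1 := by exact_mod_cast c1
  have a3 := h3 A a1 a2 fun x hx => by
    have p := hp x (a1 hx)
    rw [Finset.mem_filter] at hx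
    have := f2 x hx.1 m m0 (by linarith [hx.2])
    simp only [dL x hx.2, dM m m1 m2] at this
    rcases this with h4 | h4 <;> linarith [hx.2]
  have b3 := h3 B b1 b2 fun x hx => by
    have p := hp x (b1 hx)
    obtain ⟨e1, e2, e3⟩ := mB x hx
    have := f2 _ e1 m m0 (by linarith)
    simp only [e3, dM m m1 m2] at this
    simp only [hσ] at this e2
    rcases this with h4 | h4 <;> linarith
  nlinarith

end Pool.Agent.MP_ebd0f7_an.Dy
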