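import Pool.Agent.MP_ebd0f7_an.RRCore
import Mathlib.MeasureTheory.Measure.Real

/-! Lipschitz radii: the constant `(L + 1) / (2 L)` is admissible. -/

namespace Pool.Agent.MP_ebd0f7_an

open Set MeasureTheory

/-- The length of `A` to the left of `t`. -/
noncomputable def W (A : Set ℝ) (t : ℝ) : ℝ := volume.real (A ∩ Iic t)

theorem W_fin {A : Set ℝ} (hA : volume A ≠ ⊤) (t : ℝ) : volume (A ∩ Iic t) ≠ ⊤ :=
  ne_top_of_le_ne_top hA (measure_mono inter_subset_left)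

theorem W_mono {A : Set ℝ} (hA : volume A ≠ ⊤) {s t : ℝ} (h : s ≤ t) : W A s ≤ W A t :=
  measureReal_mono (inter_subset_inter_right _ (Iic_subset_Iic.2 h)) (W_fin hA t)

theorem W_lip {A : Set ℝ} (hA : volume A ≠ ⊤) {s t : ℝ} (h : s ≤ t) :
    W A t ≤ W A s + (t - s) := by
  have h1 : A ∩ Iic t ⊆ A ∩ Iic s ∪ Ioc s t := fun x hx =>
    (le_or_gt x s).imp (fun h => ⟨hx.1, h⟩) fun h => ⟨h, hx.2⟩
  have h2 := measureReal_mono (μ := volume) h1
    (measure_union_ne_top (W_fin hA s) measure_Ioc_lt_top.ne)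
  have h3 := measureReal_union_le (μ := volume) (A ∩ Iic s) (Ioc s t)
  rw [Real.volume_real_Ioc_of_le h] at h3
  exact h2.trans h3

theorem W_ge {A : Set ℝ} (hA : volume A ≠ ⊤) {s t : ℝ} (h : s ≤ t) (hs : Ioo s t ⊆ A) :
    W A s + (t - s) ≤ W A t := by
  have h1 : A ∩ Iic s ∪ Ioo s t ⊆ A ∩ Iic t := union_subset
    (inter_subset_inter_right _ (Iic_subset_Iic.2 h)) fun x hx => ⟨hs hx, hx.2.le⟩
  have h2 := measureReal_mono (μ := volume) h1 (W_fin hA t)
  rwa [measureReal_union (Set.disjoint_left.2 fun x hx hy => absurd hy.1 (not_lt.2 hx.2))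
    measurableSet_Ioo (W_fin hA s) measure_Ioo_lt_top.ne, Real.volume_real_Ioo_of_le h] at h2

theorem W_eq {A : Set ℝ} (hA : volume A ≠ ⊤) {s t u : ℝ} (h : t ∈ Icc s u) (hs : Ioo s u ⊆ A) :
    W A t = t + (W A s - s) := by
  linarith [W_lip hA h.1, W_ge hA h.1 ((Ioo_subset_Ioo_right h.2).trans hs)]

theorem W_mem {A : Set ℝ} {S : ℝ} (hS : 0 ≤ S) (hA : volume A ≤ ENNReal.ofReal S) (t : ℝ) :
    0 ≤ W A t ∧ W A t ≤ S :=
  ⟨measureReal_nonneg, ENNReal.toReal_le_of_le_ofReal hS ((measure_mono inter_subset_left).trans hA)⟩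

theorem lip_good {L : ℝ} (hL : 1 ≤ L) {E : Set ℝ} {δ : ℝ → ℝ} (hE : IsCompact E)
    (hp : ∀ x ∈ E, 0 < δ x) (hl : ∀ x ∈ E, ∀ y ∈ E, |δ x - δ y| ≤ L * |x - y|) :
    Good ((L + 1) / (2 * L)) E δ := by
  have hc : ContinuousOn δ E := (LipschitzOnWith.of_dist_le' (K := L) hl).continuousOn
  by_contra hn
  set S := (L + 1) / (2 * L) * (volume E).toReal with hS
  have h1 : ∀ F : Finset ℝ, ↑F ⊆ E → Dis δ F → ∑ x ∈ F, 2 * δ x < S := fun F hF hd =>
    lt_of_not_ge fun h => hn (good_of hp hE.measure_lt_top.ne hF hd h)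
  have h0 : 0 < S := by simpa using h1 ∅ (by simp) (sep_empty _ _)
  have hU := vol_U hp fun F hF hd => (h1 F hF hd).le
  obtain ⟨⟨F, hF, dF, cF⟩, G, hG, dG, cG⟩ := cover2 hE hc hp
  have hA := vol_le (δ := δ) fun x hx => hp x (hF hx)
  have hB := vol_le (δ := δ) fun x hx => hp x (hG hx)
  have sF := h1 F hF dF
  have sG := h1 G hG dG
  have pF : 0 ≤ ∑ x ∈ F, 2 * δ x := Finset.sum_nonneg fun x hx => by linarith [hp x (hF hx)]
  have pG : 0 ≤ ∑ x ∈ G, 2 * δ x := Finset.sum_nonneg fun x hx => by linarith [hp x (hG hx)]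
  set U := ⋃ x ∈ E, Ioo (x - δ x) (x + δ x)
  set A := ⋃ x ∈ F, Ioo (x - δ x) (x + δ x)
  set B := ⋃ x ∈ G, Ioo (x - δ x) (x + δ x)
  have fU := ne_top_of_le_ne_top ENNReal.ofReal_ne_top hU
  have fA := ne_top_of_le_ne_top ENNReal.ofReal_ne_top hA
  have fB := ne_top_of_le_ne_top ENNReal.ofReal_ne_top hB
  have sU : ∀ x ∈ E, Ioo (x - δ x) (x + δ x) ⊆ U := fun x hx =>
    subset_biUnion_of_mem (u := fun x => Ioo (x - δ x) (x + δ x)) hx
  have sA : ∀ x ∈ F, Ioo (x - δ x) (x + δ x) ⊆ A := fun x hx =>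
    subset_biUnion_of_mem (u := fun x => Ioo (x - δ x) (x + δ x)) (show x ∈ (F : Set ℝ) from hx)
  have sB : ∀ x ∈ G, Ioo (x - δ x) (x + δ x) ⊆ B := fun x hx =>
    subset_biUnion_of_mem (u := fun x => Ioo (x - δ x) (x + δ x)) (show x ∈ (G : Set ℝ) from hx)
  have key := transl (fun y => ((L - 1) * (W U (y - δ y) + W U (y + δ y)) +
      2 * (W A (y - δ y) + W B (y + δ y))) / (2 * (L + 1)))
    ((F ×ˢ G).image fun p => ((L - 1) * (W U (p.1 - δ p.1) - (p.1 - δ p.1) +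
      (W U (p.2 - δ p.2) - (p.2 - δ p.2))) + 2 * (W A (p.1 - δ p.1) - (p.1 - δ p.1) +
      (W B (p.2 - δ p.2) - (p.2 - δ p.2)))) / (2 * (L + 1))) E 0
    (((L - 1) * (4 * S) + 2 * (∑ x ∈ F, 2 * δ x + ∑ x ∈ G, 2 * δ x)) / (2 * (L + 1)))
    (div_nonneg (by nlinarith) (by linarith)) (fun x hx y hy hxy => ?_) (fun y hy => ?_)
    fun y hy => ?_
  · have h2 := ENNReal.toReal_le_of_le_ofReal (by
      rw [sub_zero]; exact div_nonneg (by nlinarith) (by linarith)) key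
    rw [sub_zero, le_div_iff₀ (by linarith)] at h2
    have h3 : 2 * L * S = (L + 1) * (volume E).toReal := by
      rw [hS]; field_simp
    nlinarith
  · refine div_le_div_of_nonneg_right ?_ (by linarith)
    have h2 := abs_le.1 (hl x hx y hy)
    rw [abs_sub_comm, abs_of_nonneg (sub_nonneg.2 hxy)] at h2
    have px := hp x hx
    have py := hp y hy
    rcases lt_or_ge (y - δ y) (x - δ x) with h3 | h3
    · have a1 := W_lip fU h3.le
      have a2 := W_lip fA h3.le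
      have a3 := W_mono fB (show x + δ x ≤ y + δ y by linarith)
      have a4 := W_ge fU (show x + δ x ≤ y + δ y by linarith)
        ((Ioo_subset_Ioo_left (by linarith)).trans (sU y hy))
      nlinarith [mul_le_mul_of_nonneg_left a1 (sub_nonneg.2 hL),
        mul_le_mul_of_nonneg_left a4 (sub_nonneg.2 hL)]
    rcases lt_or_ge (y + δ y) (x + δ x) with h4 | h4
    · have a1 := W_lip fU h4.le
      have a2 := W_lip fB h4.le
      have a3 := W_mono fA h3
      have a4 := W_ge fU h3 ((Ioo_subset_Ioo_right (by linarith)).trans (sU x hx))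
      nlinarith [mul_le_mul_of_nonneg_left a1 (sub_nonneg.2 hL),
        mul_le_mul_of_nonneg_left a4 (sub_nonneg.2 hL)]
    · nlinarith [mul_le_mul_of_nonneg_left (add_le_add (W_mono fU h3) (W_mono fU h4))
        (sub_nonneg.2 hL), W_mono fA h3, W_mono fB h4]
  · obtain ⟨x, hx, h2⟩ := cF y hy
    obtain ⟨z, hz, h3⟩ := cG y hy
    refine Finset.mem_image.2 ⟨(x, z), Finset.mem_product.2 ⟨hx, hz⟩, ?_⟩
    simp only
    rw [W_eq fU h2 (sU x (hF hx)), W_eq fU h3 (sU z (hG hz)), W_eq fA h2 (sA x hx),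
      W_eq fB h3 (sB z hz)]
    field_simp
    ring
  · have a1 := W_mem (by linarith) hU (y - δ y)
    have a2 := W_mem (by linarith) hU (y + δ y)
    have a3 := W_mem pF hA (y - δ y)
    have a4 := W_mem pG hB (y + δ y)
    refine ⟨div_nonneg ?_ (by linarith), div_le_div_of_nonneg_right ?_ (by linarith)⟩
    · nlinarith [mul_nonneg (sub_nonneg.2 hL) (add_nonneg a1.1 a2.1)]
    · nlinarith [mul_le_mul_of_nonneg_left (add_le_add a1.2 a2.2) (sub_nonneg.2 hL)]

end Pool.Agent.MP_ebd0f7_an
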