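import Pool.Agent.MP_ebd0f7_an.DyCore
import Pool.Agent.MP_ebd0f7_an.RRLip

/-! Lacunary radii: the two-level selection lemma and the induction on the scales. -/

namespace Pool.Agent.MP_ebd0f7_an.Dy

open Set MeasureTheory

/-- The union of the intervals of a finite family, each enlarged by `a` on both sides. -/
def Nb (δ : ℝ → ℝ) (a : ℝ) (F : Finset ℝ) : Set ℝ := ⋃ y ∈ F, Ioo (y - δ y - a) (y + δ y + a)

theorem mem_Nb {δ : ℝ → ℝ} {a x : ℝ} {F : Finset ℝ} :
    x ∈ Nb δ a F ↔ ∃ y ∈ F, y - δ y - a < x ∧ x < y + δ y + a := by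
  simp only [Nb, mem_iUnion, mem_Ioo, exists_prop]

theorem W_Ioc {A : Set ℝ} (hA : volume A ≠ ⊤) {s t : ℝ} (h : s ≤ t) :
    volume.real (A ∩ Ioc s t) ≤ W A t - W A s := by
  have h1 := measureReal_inter_add_sdiff (μ := volume) (s := A ∩ Iic t) (measurableSet_Iic (a := s))
    (W_fin hA t)
  have h2 : A ∩ Iic t ∩ Iic s = A ∩ Iic s := by
    rw [inter_assoc, Iic_inter_Iic, min_eq_right h]
  have h3 : (A ∩ Iic t) \ Iic s = A ∩ Ioc s t := by
    ext x; simp only [mem_sdiff, mem_inter_iff, mem_Iic, mem_Ioc, not_le]; tauto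
  rw [h2, h3] at h1
  unfold W
  linarith

theorem level {T S : Set ℝ} {δ : ℝ → ℝ} {lo hi R r u k θ : ℝ} (hT : T ⊆ Icc lo hi)
    (hS : S ⊆ Icc lo hi) (dT : ∀ x ∈ T, δ x = R) (dS : ∀ x ∈ S, δ x = r) (r0 : 0 < r)
    (u0 : 0 ≤ u) (ur : u ≤ r) (rk : r ≤ k * R) (rR : r ≤ R) (k2 : 1 ≤ 2 * k)
    (au : R - r ≤ 2 * (k * R) - 2 * u) (hθ : 1 < θ) :
    ∃ F : Finset ℝ, ↑F ⊆ T ∪ S ∧ Dis δ F ∧ volume (T ∪ Nb δ u F ∪ S ∩ Nb δ r F) ≠ ⊤ ∧
      volume.real (T ∪ Nb δ u F ∪ S ∩ Nb δ r F) ≤ θ * (1 + k) * ∑ x ∈ F, 2 * δ x := by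
  classical
  have R0 : 0 < R := r0.trans_le rR
  have θ0 : 0 < θ := by linarith
  have tu : u ≤ θ * u := by nlinarith
  have tr : r ≤ θ * r := by nlinarith
  have tR : R < θ * R := by nlinarith
  have tur : θ * u ≤ θ * r := mul_le_mul_of_nonneg_left ur θ0.le
  have trR : θ * r ≤ θ * R := mul_le_mul_of_nonneg_left rR θ0.le
  have dp : ∀ x ∈ T ∪ S, 0 < δ x ∧ δ x ≤ R ∧ lo ≤ x ∧ x ≤ hi := by
    rintro x (h | h)
    · exact ⟨by rw [dT x h]; exact R0, (dT x h).le, hT h⟩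
    · exact ⟨by rw [dS x h]; exact r0, (dS x h).le.trans rR, hS h⟩
  set T' := closure T with hT'
  have cT : T' ⊆ Icc lo hi := closure_minimal hT isClosed_Icc
  have kT : IsCompact T' := isCompact_Icc.of_isClosed_subset isClosed_closure cT
  have hf : volume T' ≠ ⊤ := kT.measure_lt_top.ne
  have hL : ∀ a b, a ≤ b → W T' b - W T' a ≤ b - a := fun a b hab => by linarith [W_lip hf hab]
  set K := hi + 2 * R with hK
  set U : ℝ → Finset ℝ → Set ℝ := fun p F =>
    (T' ∪ Nb δ u F ∪ S ∩ Nb δ r F ∪ Iio (p + θ * r)) ∩ Ioc (p - θ * u) K with hU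
  have Uf : ∀ p F, volume (U p F) ≠ ⊤ := fun p F =>
    ne_top_of_le_ne_top measure_Ioc_lt_top.ne (measure_mono inter_subset_right)
  set A : ℝ → ℝ → Prop := fun p v => ∃ F : Finset ℝ, ↑F ⊆ T ∪ S ∧ Dis δ F ∧
    (∀ x ∈ F, p ≤ x - δ x) ∧ volume.real (U p F) + v ≤ θ * (1 + k) * ∑ x ∈ F, 2 * δ x with hA
  set X : ℝ → ℝ → ℝ → Set ℝ := fun c ϱ p => Ioc (c - ϱ - θ * u) (p - θ * u) ∩
    (Iio (c + ϱ + θ * u) ∪ T' ∪ S ∩ (Iio (c + ϱ + θ * r) ∪ Ioi (p - θ * r))) with hX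
  have Xf : ∀ c ϱ p, volume (X c ϱ p) ≠ ⊤ := fun c ϱ p =>
    ne_top_of_le_ne_top measure_Ioc_lt_top.ne (measure_mono inter_subset_left)
  have G : ∀ x ∈ T ∪ S, ∀ c ϱ p v, c - ϱ ≤ x - δ x → x + δ x ≤ c + ϱ → θ * δ x = ϱ →
      θ * r ≤ ϱ → c + ϱ ≤ p → A p v → A (c - ϱ) (v + 2 * (1 + k) * ϱ - volume.real (X c ϱ p)) := by
    rintro x hx c ϱ p v h1 h2 h3 h4 h5 ⟨F, f1, f2, f3, f4⟩
    have d0 := (dp x hx).1
    have xn : x ∉ F := fun h => by linarith [f3 x h]
    refine ⟨insert x F, by rw [Finset.coe_insert]; exact insert_subset hx f1,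
      f2.insert fun y hy => Or.inl (by linarith [f3 y hy]), fun y hy => ?_, ?_⟩
    · rcases Finset.mem_insert.1 hy with rfl | hy
      · exact h1
      · linarith [f3 y hy]
    have sub : U (c - ϱ) (insert x F) ⊆ U p F ∪ X c ϱ p := by
      rintro z ⟨z1, z2, z3⟩
      rcases le_or_gt z (p - θ * u) with h | h
      · refine Or.inr ⟨⟨z2, h⟩, ?_⟩
        rcases z1 with ((z1 | z1) | ⟨z0, z1⟩) | z1
        · exact Or.inl (Or.inr z1)
        · obtain ⟨y, hy, y1, y2⟩ := mem_Nb.1 z1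
          rcases Finset.mem_insert.1 hy with rfl | hy
          · exact Or.inl (Or.inl (by simp only [mem_Iio]; linarith))
          · linarith [f3 y hy]
        · obtain ⟨y, hy, y1, y2⟩ := mem_Nb.1 z1
          rcases Finset.mem_insert.1 hy with rfl | hy
          · exact Or.inr ⟨z0, Or.inl (by simp only [mem_Iio]; linarith)⟩
          · exact Or.inr ⟨z0, Or.inr (by simp only [mem_Ioi]; linarith [f3 y hy])⟩
        · exact Or.inl (Or.inl (by simp only [mem_Iio] at z1 ⊢; linarith))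
      · refine Or.inl ⟨?_, h, z3⟩
        rcases z1 with ((z1 | z1) | ⟨z0, z1⟩) | z1
        · exact Or.inl (Or.inl (Or.inl z1))
        · obtain ⟨y, hy, y1, y2⟩ := mem_Nb.1 z1
          rcases Finset.mem_insert.1 hy with rfl | hy
          · exact Or.inr (by simp only [mem_Iio]; linarith)
          · exact Or.inl (Or.inl (Or.inr (mem_Nb.2 ⟨y, hy, y1, y2⟩)))
        · obtain ⟨y, hy, y1, y2⟩ := mem_Nb.1 z1
          rcases Finset.mem_insert.1 hy with rfl | hy
          · exact Or.inr (by simp only [mem_Iio]; linarith)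
          · exact Or.inl (Or.inr ⟨z0, mem_Nb.2 ⟨y, hy, y1, y2⟩⟩)
        · exact Or.inr (by simp only [mem_Iio] at z1 ⊢; linarith)
    have m1 := (measureReal_mono sub (measure_union_ne_top (Uf _ _) (Xf _ _ _))).trans
      (measureReal_union_le _ _)
    rw [Finset.sum_insert xn, mul_add, ← h3]
    rw [← h3] at m1
    linarith
  have X1 : ∀ c ϱ p, c - ϱ ≤ p → volume.real (X c ϱ p) ≤ p - c + ϱ := fun c ϱ p h => by
    have := measureReal_mono (μ := volume) (inter_subset_left : X c ϱ p ⊆ _) measure_Ioc_lt_top.ne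
    rw [Real.volume_real_Ioc_of_le (by linarith)] at this
    linarith
  have X2 : ∀ c ϱ p t t' s, 0 ≤ ϱ → c + ϱ ≤ p → c + ϱ + θ * u ≤ t' → t ≤ t' → s ≤ p - θ * u →
      (∀ x ∈ S, t < x → x < s → c + ϱ + θ * r < x ∧ x < p - θ * r) → volume.real (X c ϱ p) ≤
        t' - c + ϱ + θ * u + (W T' s - W T' t) + (p - θ * u - s) := by
    intro c ϱ p t t' s h0 h1 h2 h3 h4 h5
    rcases le_total s t with h | h
    · linarith [X1 c ϱ p (by linarith), hL s t h]
    have sub : X c ϱ p ⊆ Ioc (c - ϱ - θ * u) t' ∪ T' ∩ Ioc t s ∪ Icc s (p - θ * u) := by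
      rintro z ⟨⟨z1, z2⟩, z3⟩
      rcases le_or_gt z t' with a1 | a1
      · exact Or.inl (Or.inl ⟨z1, a1⟩)
      rcases le_or_gt s z with a2 | a2
      · exact Or.inr ⟨a2, z2⟩
      rcases z3 with (z3 | z3) | ⟨z0, z3⟩
      · linarith [mem_Iio.1 z3]
      · exact Or.inl (Or.inr ⟨z3, by linarith, a2.le⟩)
      · have := h5 z z0 (by linarith) a2
        rcases z3 with z3 | z3
        · linarith [mem_Iio.1 z3]
        · linarith [mem_Ioi.1 z3]
    have m1 := (measureReal_mono sub (measure_union_ne_top (measure_union_ne_top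
      measure_Ioc_lt_top.ne (ne_top_of_le_ne_top hf (measure_mono inter_subset_left)))
      measure_Icc_lt_top.ne)).trans (measureReal_union_le _ _)
    have m2 := measureReal_union_le (μ := volume) (Ioc (c - ϱ - θ * u) t') (T' ∩ Ioc t s)
    rw [Real.volume_real_Icc_of_le h4] at m1
    rw [Real.volume_real_Ioc_of_le (by nlinarith)] at m2
    linarith [W_Ioc hf h]
  have dn : ∀ p v v', A p v → v' ≤ v → A p v' := by
    rintro p v v' ⟨F, f1, f2, f3, f4⟩ h
    exact ⟨F, f1, f2, f3, by linarith⟩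
  have GT : ∀ y ∈ T', ∀ p v, y + θ * R ≤ p → A p v →
      A (y - θ * R) (v + 2 * (1 + k) * (θ * R) - volume.real (X y (θ * R) p)) := by
    intro y hy p v h1 h2
    obtain ⟨x, hx, hd⟩ := Metric.mem_closure_iff.1 hy (θ * R - R) (by linarith)
    rw [Real.dist_eq, abs_lt] at hd
    have := dT x hx
    exact G x (Or.inl hx) _ _ _ _ (by linarith) (by linarith) (by rw [this]) trR h1 h2
  have GS : ∀ z ∈ S, ∀ p v, z + θ * r ≤ p → A p v →
      A (z - θ * r) (v + 2 * (1 + k) * (θ * r) - volume.real (X z (θ * r) p)) := by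
    intro z hz p v h1 h2
    have := dS z hz
    exact G z (Or.inr hz) _ _ _ _ (by linarith) (by linarith) (by rw [this]) le_rfl h1 h2
  have C : Ctx T' S (W T') A (θ * R) (θ * r) (θ * u) (θ * (k * R)) (θ * (k * r)) (K + θ * u) :=
    { u0 := by linarith
      ur := tur
      ra := mul_le_mul_of_nonneg_left rk θ0.le
      rR := trR
      R0 := by linarith
      Ra := by nlinarith [mul_pos θ0 R0]
      ab := by nlinarith [mul_pos θ0 R0, mul_pos θ0 r0]
      au := by nlinarith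
      lo := fun t x hx h => by
        obtain ⟨y, hy⟩ := (kT.inter_right (isClosed_Ici (a := t))).exists_isLeast ⟨x, hx, h⟩
        exact ⟨y, hy.1.1, hy.1.2, fun z h1 h2 => hy.2 ⟨h1, h2⟩⟩
      hi := fun t x hx h => by
        obtain ⟨y, hy⟩ := (kT.inter_right (isClosed_Iic (a := t))).exists_isGreatest ⟨x, hx, h⟩
        exact ⟨y, hy.1.1, hy.1.2, fun z h1 h2 => hy.2 ⟨h1, h2⟩⟩
      mono := fun _ _ h => W_mono hf h
      lip := hL
      free := fun s t h => by
        have sub : T' ∩ Iic t ⊆ T' ∩ Iic s ∪ {t} := fun x hx =>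
          (le_or_gt x s).imp (fun h1 => ⟨hx.1, h1⟩) fun h1 => le_antisymm hx.2 (h x hx.1 h1)
        have := (measureReal_mono sub (measure_union_ne_top (W_fin hf s) (by simp))).trans
          (measureReal_union_le _ _)
        have e : volume.real ({t} : Set ℝ) = 0 := by simp [Measure.real]
        unfold W
        linarith
      TK := fun x hx => by linarith [(cT hx).2]
      SK := fun x hx => by linarith [(hS hx).2]
      base := fun p hp => ⟨∅, by simp, sep_empty _ _, by simp, by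
        simp [hU, Ioc_eq_empty (show ¬ p - θ * u < K by linarith)]⟩
      dn := dn
      T1 := fun y hy p v h1 h2 =>
        dn _ _ _ (GT y hy p v h1 h2) (by linarith [X1 y (θ * R) p (by linarith)])
      T2 := fun y hy p v t t' s h1 h2 h3 h4 h5 h6 =>
        dn _ _ _ (GT y hy p v h1 h2)
          (by linarith [X2 y (θ * R) p t t' s (by linarith) h1 h3 h4 h5 h6])
      S1 := fun z hz p v h1 h2 =>
        dn _ _ _ (GS z hz p v h1 h2) (by linarith [X1 z (θ * r) p (by linarith)])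
      S2 := fun z hz p v s h1 h2 h3 h4 =>
        dn _ _ _ (GS z hz p v h1 h2) (by
          linarith [X2 z (θ * r) p (z + 2 * (θ * r)) _ s (by linarith) h1 (by linarith) le_rfl h3
            fun x hx a1 a2 => ⟨by linarith, h4 x hx a1 a2⟩]) }
  have h0 : W T' (lo - 1) = 0 := by
    have : T' ∩ Iic (lo - 1) = ∅ := eq_empty_of_forall_notMem fun x hx => by
      linarith [(cT hx.1).1, mem_Iic.1 hx.2]
    simp [W, this]
  obtain ⟨p, v, s, ⟨F, f1, f2, f3, f4⟩, s1, s2, s3⟩ := C.main h0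
  have sub : T ∪ Nb δ u F ∪ S ∩ Nb δ r F ⊆ U p F ∪ T' ∩ Iic s ∪ Icc s (p - θ * u) := by
    intro z hz
    rcases le_or_gt z (p - θ * u) with h | h
    · rcases le_or_gt s z with a2 | a2
      · exact Or.inr ⟨a2, h⟩
      rcases hz with (hz | hz) | ⟨z0, hz⟩
      · exact Or.inl (Or.inr ⟨subset_closure hz, a2.le⟩)
      · obtain ⟨y, hy, y1, -⟩ := mem_Nb.1 hz
        linarith [f3 y hy]
      · obtain ⟨y, hy, y1, -⟩ := mem_Nb.1 hz
        linarith [f3 y hy, s2 z z0 (by linarith [(hS z0).1]) a2]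
    · refine Or.inl (Or.inl ⟨Or.inl (hz.imp_left fun h => h.imp_left fun h => subset_closure h),
        h, ?_⟩)
      rcases hz with (hz | hz) | ⟨z0, -⟩
      · linarith [(hT hz).2]
      · obtain ⟨y, hy, -, y2⟩ := mem_Nb.1 hz
        have := dp y (f1 hy)
        linarith [this.2.1, this.2.2.2]
      · linarith [(hS z0).2]
  have fin := measure_union_ne_top (measure_union_ne_top (Uf p F) (W_fin hf s))
    (measure_Icc_lt_top (μ := volume) (a := s) (b := p - θ * u)).ne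
  refine ⟨F, f1, f2, ne_top_of_le_ne_top fin (measure_mono sub), ?_⟩
  have m1 := (measureReal_mono sub fin).trans (measureReal_union_le _ _)
  have m2 := measureReal_union_le (μ := volume) (U p F) (T' ∩ Iic s)
  rw [Real.volume_real_Icc_of_le s1] at m1
  unfold W at s3
  linarith

theorem levels {L : Set ℝ} {k θ a lo hi : ℝ} {δ : ℝ → ℝ} (k2 : 1 ≤ 2 * k) (k1 : k < 1)
    (hθ : 1 < θ) (ha : 0 < a) (hL : ∀ x ∈ L, ∀ y ∈ L, x < y → x ≤ k * y) (n : ℕ) :
    ∀ A : Set ℝ, A ⊆ Icc lo hi → (∀ x ∈ A, δ x ∈ L ∧ a ≤ δ x ∧ k ^ n * δ x < a) →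
    ∃ F : Finset ℝ, ↑F ⊆ A ∧ Dis δ F ∧ volume.real A ≤ θ * (1 + k) * ∑ x ∈ F, 2 * δ x := by
  classical
  induction n with
  | zero =>
    intro A _ h
    have : A = ∅ := eq_empty_of_forall_notMem fun x hx => by
      have := h x hx
      simp at this
      linarith
    exact ⟨∅, by simp, sep_empty _ _, by simp [this]⟩
  | succ n ih =>
    intro A hA h
    by_cases hx : ∀ x ∈ A, k ^ n * δ x < a
    · exact ih A hA fun x h1 => ⟨(h x h1).1, (h x h1).2.1, hx x h1⟩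
    push Not at hx
    obtain ⟨x₀, hx₀, hR⟩ := hx
    set R := δ x₀ with hRd
    have k0 : 0 < k := by linarith
    have kn : 0 < k ^ n := pow_pos k0 n
    have R0 : 0 < R := ha.trans_le (h x₀ hx₀).2.1
    have low : ∀ x ∈ A, δ x ≠ R → δ x ≤ k * R ∧ k ^ n * δ x < a := by
      intro x h1 h2
      rcases lt_or_gt_of_ne h2 with h3 | h3
      · have a1 := hL _ (h x h1).1 _ (h x₀ hx₀).1 h3
        have a2 := (h x₀ hx₀).2.2
        rw [pow_succ] at a2
        exact ⟨a1, by nlinarith⟩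
      · have a1 := hL _ (h x₀ hx₀).1 _ (h x h1).1 h3
        have a2 := (h x h1).2.2
        rw [pow_succ] at a2
        nlinarith
    obtain ⟨r, r0, rk, hr⟩ : ∃ r, 0 < r ∧ r ≤ k * R ∧
        ∀ x ∈ A, δ x ≠ R → δ x ≠ r → δ x ≤ k * r := by
      by_cases hc : ∃ x ∈ A, δ x ≠ R ∧ k * (k * R) < δ x
      · obtain ⟨x₁, h1, h2, h3⟩ := hc
        refine ⟨δ x₁, ha.trans_le (h x₁ h1).2.1, (low x₁ h1 h2).1, fun x h4 h5 h6 => ?_⟩
        rcases lt_or_gt_of_ne h6 with h7 | h7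
        · exact hL _ (h x h4).1 _ (h x₁ h1).1 h7
        · have a1 := hL _ (h x₁ h1).1 _ (h x h4).1 h7
          nlinarith [(low x h4 h5).1]
      · push Not at hc
        exact ⟨k * R, mul_pos k0 R0, le_rfl, fun x h1 h2 _ => hc x h1 h2⟩
    have rR : r ≤ R := by nlinarith
    obtain ⟨Y, y1, y2, y3, y4⟩ := level (T := {x ∈ A | δ x = R}) (S := {x ∈ A | δ x = r}) (δ := δ)
      (u := k * r) ((sep_subset _ _).trans hA) ((sep_subset _ _).trans hA) (fun _ h => h.2)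
      (fun _ h => h.2) r0 (mul_pos k0 r0).le (by nlinarith) rk rR k2 (by nlinarith) hθ
    set Z := {x ∈ A | δ x = R} ∪ Nb δ (k * r) Y ∪ {x ∈ A | δ x = r} ∩ Nb δ r Y with hZ
    have nR : ∀ x ∈ A \ Z, δ x ≠ R := fun x h1 h2 => h1.2 (Or.inl (Or.inl ⟨h1.1, h2⟩))
    obtain ⟨F, f1, f2, f3⟩ := ih (A \ Z) (sdiff_subset.trans hA)
      fun x h1 => ⟨(h x h1.1).1, (h x h1.1).2.1, (low x h1.1 (nR x h1)).2⟩
    have yA : (↑Y : Set ℝ) ⊆ A := y1.trans (union_subset (sep_subset _ _) (sep_subset _ _))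
    have cross : ∀ x ∈ F, ∀ y ∈ Y, x + δ x ≤ y - δ y ∨ y + δ y ≤ x - δ x := by
      intro x h1 y h2
      have a1 := f1 h1
      by_contra hq
      rw [not_or, not_le, not_le] at hq
      by_cases e : δ x = r
      · exact a1.2 (Or.inr ⟨⟨a1.1, e⟩, mem_Nb.2 ⟨y, h2, by linarith [hq.1], by linarith [hq.2]⟩⟩)
      · have := hr x a1.1 (nR x a1) e
        exact a1.2 (Or.inl (Or.inr (mem_Nb.2 ⟨y, h2, by linarith [hq.1], by linarith [hq.2]⟩)))
    have dj : Disjoint F Y := Finset.disjoint_left.2 fun x h1 h2 => by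
      have := ha.trans_le (h x (yA h2)).2.1
      rcases cross x h1 x h2 with h3 | h3 <;> linarith
    refine ⟨F ∪ Y, ?_, ?_, ?_⟩
    · rw [Finset.coe_union]
      exact union_subset (f1.trans sdiff_subset) yA
    · intro x h1 y h2 hxy
      rcases Finset.mem_union.1 h1 with h1 | h1 <;> rcases Finset.mem_union.1 h2 with h2 | h2
      · exact f2 x h1 y h2 hxy
      · exact cross x h1 y h2
      · exact (cross y h2 x h1).symm
      · exact y2 x h1 y h2 hxy
    · have hf : volume (A \ Z) ≠ ⊤ :=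
        ne_top_of_le_ne_top measure_Icc_lt_top.ne (measure_mono (sdiff_subset.trans hA))
      have := (measureReal_mono (subset_sdiff_union A Z) (measure_union_ne_top hf y3)).trans
        (measureReal_union_le _ _)
      rw [Finset.sum_union dj, mul_add]
      linarith

theorem fin_lac {L : Set ℝ} {k c : ℝ} (k2 : 1 ≤ 2 * k) (k1 : k < 1)
    (hL : ∀ x ∈ L, ∀ y ∈ L, x < y → x ≤ k * y) (hc : (1 + k) * c < 1) {E : Set ℝ} {δ : ℝ → ℝ}
    (hE : IsCompact E) (hp : ∀ x ∈ E, 0 < δ x) (h : ∀ x ∈ E, δ x ∈ L) :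
    ∃ F : Finset ℝ, ↑F ⊆ E ∧ Dis δ F ∧ c * (volume E).toReal ≤ ∑ x ∈ F, 2 * δ x := by
  have hf : volume E ≠ ⊤ := hE.measure_lt_top.ne
  set V := (volume E).toReal with hV
  have V0 : 0 ≤ V := ENNReal.toReal_nonneg
  by_cases h1 : c * V ≤ 0
  · exact ⟨∅, by simp, sep_empty _ _, by simpa using h1⟩
  by_cases h2 : ∃ x ∈ E, c * V ≤ 2 * δ x
  · obtain ⟨x, hx, h2⟩ := h2
    exact ⟨{x}, by simpa using hx, fun a ha b hb hab => absurd ((Finset.mem_singleton.1 ha).trans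
      (Finset.mem_singleton.1 hb).symm) hab, by simpa using h2⟩
  push Not at h1 h2
  have V1 : 0 < V := V0.lt_of_ne fun hq => by rw [← hq] at h1; simp at h1
  have c0 : 0 < c := (mul_pos_iff_of_pos_right V1).1 h1
  have q0 : 0 < (1 + k) * c := mul_pos (by linarith) c0
  set θ := 2 / (1 + (1 + k) * c) with hθ
  have θ1 : 1 < θ := (one_lt_div (by linarith)).2 (by linarith)
  have θ2 : θ * ((1 + k) * c) < 1 := by
    rw [hθ, div_mul_eq_mul_div, div_lt_one (by linarith)]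
    linarith
  have κ0 : 0 < θ * (1 + k) := mul_pos (by linarith) (by linarith)
  have mono : Monotone fun j : ℕ => {x ∈ E | 1 / ((j : ℝ) + 1) ≤ δ x} := fun i j hij x hx =>
    ⟨hx.1, (Nat.one_div_le_one_div hij).trans hx.2⟩
  have un : ⋃ j : ℕ, {x ∈ E | 1 / ((j : ℝ) + 1) ≤ δ x} = E := by
    refine Subset.antisymm (iUnion_subset fun _ => sep_subset _ _) fun x hx => ?_
    obtain ⟨j, hj⟩ := exists_nat_one_div_lt (hp x hx)
    exact mem_iUnion.2 ⟨j, hx, hj.le⟩
  have p0 : 0 ≤ θ * (1 + k) * (c * V) := (mul_pos κ0 h1).le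
  have lt : ENNReal.ofReal (θ * (1 + k) * (c * V)) < volume E :=
    (ENNReal.ofReal_lt_iff_lt_toReal p0 hf).2 (by nlinarith)
  rw [← un, mono.measure_iUnion, lt_iSup_iff] at lt
  obtain ⟨j, hj⟩ := lt
  have j0 : (0 : ℝ) < 1 / ((j : ℝ) + 1) := Nat.one_div_pos_of_nat
  obtain ⟨n, hn⟩ := exists_pow_lt_of_lt_one (div_pos j0 h1) k1
  obtain ⟨lo, hi, hb⟩ : ∃ lo hi, E ⊆ Icc lo hi :=
    ⟨sInf E, sSup E, subset_Icc_csInf_csSup hE.bddBelow hE.bddAbove⟩
  obtain ⟨F, f1, f2, f3⟩ := levels (δ := δ) k2 k1 θ1 j0 hL n {x ∈ E | 1 / ((j : ℝ) + 1) ≤ δ x}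
    ((sep_subset _ _).trans hb) fun x hx => ⟨h x hx.1, hx.2, by
      have a1 := (lt_div_iff₀ h1).1 hn
      have a2 : 0 < k ^ n := pow_pos (by linarith) n
      nlinarith [h2 x hx.1, hp x hx.1]⟩
  have := (ENNReal.ofReal_lt_iff_lt_toReal p0
    (ne_top_of_le_ne_top hf (measure_mono (sep_subset _ _)))).1 hj
  refine ⟨F, f1.trans (sep_subset _ _), f2, le_of_mul_le_mul_left ?_ κ0⟩
  simp only [Measure.real] at f3
  linarith

end Pool.Agent.MP_ebd0f7_an.Dy
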