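import Mathlib.Algebra.Order.Archimedean.Real.Basic
import Mathlib.Tactic.Linarith
import Mathlib.Tactic.Ring

/-! One-level lemma for lacunary radii, abstract form.  Centres are `h + 2 s` apart, each one
covers a neighbourhood of radius `h` and earns `s`; `D q` is the best value to the left of a
centre at `q`, and `M` is the distribution function of the set of possible centres. -/

namespace Pool.Agent.MP_ebd0f7_an.Lac

theorem core (D M : ℝ → ℝ) (t₀ h s : ℝ) (hh : 0 < h) (hs : 0 ≤ s) (hsh : 2 * s ≤ h)
    (hD0 : ∀ t, 0 ≤ D t) (hM : Monotone M)
    (hL : ∀ a b, a ≤ b → M b - M a ≤ b - a) (hM0 : ∀ t, 0 ≤ M t) (h0 : ∀ t, t ≤ t₀ → M t = 0)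
    (hP : ∀ w, 0 < M w → ∃ p, p ≤ w ∧ M p = M w ∧ ∀ q, p + h + 2 * s ≤ q →
      D p - M (p - h) + s + min (M (q - h)) (M (p + h)) ≤ D q) (t : ℝ) :
    M (t - h - 2 * s) ≤ D t := by
  -- the step in additive form
  have hP' : ∀ w, 0 < M w → ∃ p, p ≤ w ∧ M p = M w ∧ ∀ q, p + h + 2 * s ≤ q → ∃ e, 0 ≤ e ∧
      (e = 0 ∨ e = M (q - h) - M (p + h)) ∧ D p - M (p - h) + s - e ≤ D q - M (q - h) := by
    intro w hw
    obtain ⟨p, h1, h2, h3⟩ := hP w hw
    refine ⟨p, h1, h2, fun q hq => ?_⟩
    have := h3 q hq
    rcases le_total (M (q - h)) (M (p + h)) with hm | hm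
    · rw [min_eq_left hm] at this
      exact ⟨0, le_rfl, Or.inl rfl, by linarith⟩
    · rw [min_eq_right hm] at this
      exact ⟨_, by linarith, Or.inr rfl, by linarith⟩
  -- an upper bound for such an `e`
  have eb : ∀ {e a b c : ℝ}, (e = 0 ∨ e = M b - M a) → 0 ≤ c → b - a ≤ c → e ≤ c := by
    intro e a b c he hc hab
    rcases he with rfl | rfl
    · exact hc
    · rcases le_total a b with h1 | h1
      · linarith [hL a b h1]
      · linarith [hM h1]
  have key : ∀ n : ℕ, (∀ t, t ≤ t₀ + n * h → M (t - h - 2 * s) ≤ D t) ∧
      (∀ v u, v ≤ t₀ + n * h → v - h - 2 * s ≤ u → u ≤ v - h →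
        -min (M (v - h) - M u) s ≤ D v - M (v - h) ∨
          M (v - h - 2 * s) ≤ D v + (D u - M (u - h))) := by
    intro n
    induction n with
    | zero =>
      refine ⟨fun t ht => ?_, fun v u hv _ hu => Or.inr ?_⟩
      · rw [h0 _ (by simp at ht; linarith)]; exact hD0 _
      · simp at hv
        rw [h0 (v - h - 2 * s) (by linarith), h0 (u - h) (by linarith)]
        linarith [hD0 v, hD0 u]
    | succ n ih =>
      obtain ⟨C, H⟩ := ih
      have pair : ∀ v, v ≤ t₀ + n * h → D v - M (v - h) < 0 → ∃ z, z ≤ v - h ∧
          v - h - 2 * s ≤ z ∧ M z = M (v - h) ∧ (∀ q, z + h + 2 * s ≤ q → ∃ e, 0 ≤ e ∧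
            (e = 0 ∨ e = M (q - h) - M (z + h)) ∧ D z - M (z - h) + s - e ≤ D q - M (q - h)) ∧
          M (v - h - 2 * s) ≤ D v + (D z - M (z - h)) := by
        intro v hv hneg
        have c := C v hv
        obtain ⟨z, hz, hMz, hs'⟩ := hP' (v - h) (by linarith [hM0 (v - h - 2 * s)])
        have hz1 : v - h - 2 * s ≤ z := by
          by_contra hc
          have := hM (le_of_lt (not_le.mp hc))
          linarith
        refine ⟨z, hz, hz1, hMz, hs', ?_⟩
        rcases H v z hv hz1 hz with h1 | h1
        · rw [hMz, sub_self, min_eq_left hs] at h1
          linarith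
        · exact h1
      refine ⟨fun t ht => ?_, fun v u hv hu1 hu2 => ?_⟩
      · push_cast at ht
        rcases (hM0 (t - h - 2 * s)).eq_or_lt with h1 | h1
        · rw [← h1]; exact hD0 _
        obtain ⟨b, hb, hMb, hb'⟩ := hP' _ h1
        obtain ⟨e, -, he, e1⟩ := hb' t (by linarith)
        have e2 : M b ≤ M (b + h) := hM (by linarith)
        have e2' : M (t - h - 2 * s) ≤ M (t - h) := hM (by linarith)
        by_contra hc
        have hneg : D b - M (b - h) < -s := by rcases he with rfl | rfl <;> linarith
        obtain ⟨z, hz, hz1, hMz, hz', hp⟩ := pair b (by linarith) (by linarith)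
        obtain ⟨e', -, he', e3⟩ := hz' t (by linarith)
        have e4 := hL _ _ hz1
        have e5 := hL (z + h) b (by linarith)
        rcases he' with rfl | rfl <;> linarith
      · push_cast at hv
        by_contra hc
        rw [not_or, not_le, not_le] at hc
        obtain ⟨c1, c2⟩ := hc
        have m1 : M (u - h) ≤ M (v - h - 2 * s) := hM (by linarith)
        have m2 : M u ≤ M (v - h) := hM hu2
        have m2' : M (v - h - 2 * s) ≤ M u := hM hu1
        rcases (hM0 (v - h - 2 * s)).eq_or_lt with h1 | h1
        · linarith [hD0 v, hD0 u, hM0 (u - h)]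
        obtain ⟨x, hx, hMx, hx'⟩ := hP' _ h1
        obtain ⟨e, e0, he, e1⟩ := hx' v (by linarith)
        have e2 : M x ≤ M (x + h) := hM (by linarith)
        have e3 : e ≤ M (v - h) - M (v - h - 2 * s) := by rcases he with rfl | rfl <;> linarith
        have e4 := hL (v - h - 2 * s) (v - h) (by linarith)
        have Cu := C u (by linarith)
        have eA : u ≤ x + h → e ≤ M (v - h) - M u := fun hq => by
          have := hM hq
          rcases he with rfl | rfl <;> linarith
        rcases le_or_gt x (u - 2 * s) with hB | hA
        · have neg : D x - M (x - h) < 0 := by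
            rcases le_total (M (v - h) - M u) s with hm | hm
            · rw [min_eq_left hm] at c1
              rcases le_total u (x + h) with hr | hr
              · linarith [eA hr]
              have m3 : M x ≤ M (u - h) := hM (by linarith)
              have m4 := hL _ _ hr
              have m5 : e ≤ M (v - h) - M u + (u - (x + h)) := by
                rcases he with rfl | rfl <;> linarith
              rcases le_total (u - h - 2 * s) x with hq | hq
              · have := hL _ _ hq
                by_contra hc
                linarith
              · have := hM hq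
                linarith
            · rw [min_eq_right hm] at c1
              linarith
          obtain ⟨z, hz, hz1, hMz, hz', hp⟩ := pair x (by linarith) neg
          obtain ⟨e', -, he', f1⟩ := hz' u (by linarith)
          have f2 := hL _ _ hz1
          have f3 := hL (z + h) x (by linarith)
          rcases he' with rfl | rfl <;> linarith
        · have m3 := eA (by linarith)
          have m5 := hL (u - h - 2 * s) (x - h) (by linarith)
          have m6 : M (u - h - 2 * s) ≤ M (x - h) := hM (by linarith)
          have m4 : e + (M (x - h) - M (u - h - 2 * s)) ≤ 2 * s := by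
            rcases le_total (x + h) (v - h) with hr | hr
            · linarith [eb (c := v - h - (x + h)) he (by linarith) le_rfl]
            · linarith [eb (c := 0) he le_rfl (by linarith)]
          have low : D x - M (x - h) < -min (M (x - h) - M (u - h - 2 * s)) s := by
            have := min_le_right (M (x - h) - M (u - h - 2 * s)) s
            have := min_le_left (M (x - h) - M (u - h - 2 * s)) s
            rcases le_total (M (v - h) - M u) s with hm | hm
            · rw [min_eq_left hm] at c1
              linarith
            · rw [min_eq_right hm] at c1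
              by_contra hc
              rcases le_total e s with hq | hq <;> linarith
          have deg : M (u - h - 2 * s) ≤ M (x - h - 2 * s) → False := by
            intro hd
            have Cx := C x (by linarith)
            have l0 : 0 ≤ min (M (x - h) - M (u - h - 2 * s)) s := le_min (by linarith) hs
            obtain ⟨z, hz, hz1, hMz, hz', hp⟩ := pair x (by linarith) (by linarith)
            rcases le_total (M (x - h) - M (u - h - 2 * s)) s with hm | hm
            · rw [min_eq_left hm] at low; linarith
            rcases le_total (M (v - h) - M u) s with hq | hq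
            · rw [min_eq_left hq] at c1
              have g0 : u - h - 2 * s ≤ z := by
                by_contra hc
                have := hM (le_of_lt (not_le.mp hc))
                linarith
              have g1 := hL _ _ g0
              obtain ⟨e', -, he', g2⟩ := hz' v (by linarith)
              rcases he' with rfl | rfl
              · linarith
              rcases le_total (z + h) u with hr | hr
              · linarith [hL _ _ hr]
              · linarith [hM hr]
            · rw [min_eq_right hq] at c1; linarith
          rcases (hM0 (u - h - 2 * s)).eq_or_lt with h' | h'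
          · exact deg (by linarith [hM0 (x - h - 2 * s)])
          obtain ⟨z, hz, hMz, hz'⟩ := hP' _ h'
          rcases le_total z (x - h - 2 * s) with hq | hq
          · exact deg (by linarith [hM hq])
          obtain ⟨e', -, he', g1⟩ := hz' u (by linarith)
          have g2 := eb (c := u - h - 2 * s - z) he' (by linarith) (by linarith)
          have g3 := hL _ _ hq
          rcases H x z (by linarith) hq (by linarith) with h2 | h2
          · rw [hMz] at h2; linarith
          · linarith
  obtain ⟨n, hn⟩ := exists_nat_ge ((t - t₀) / h)
  exact (key n).1 t (by linarith [(div_le_iff₀ hh).1 hn])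

end Pool.Agent.MP_ebd0f7_an.Lac
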