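import Pool.Agent.MP_ebd0f7_an.LacCore
import Pool.Agent.MP_ebd0f7_an.RRLip

/-! Lacunary radii: every `c < 4 ρ / (5 ρ + 3)` is admissible. -/

namespace Pool.Agent.MP_ebd0f7_an.Lac

open Set MeasureTheory

/-- The `h`-neighbourhood of a finite set. -/
def Nb (h : ℝ) (Y : Finset ℝ) : Set ℝ := ⋃ y ∈ Y, Ioo (y - h) (y + h)

theorem Nb_meas (h : ℝ) (Y : Finset ℝ) : MeasurableSet (Nb h Y) :=
  Y.measurableSet_biUnion fun _ _ => measurableSet_Ioo

theorem mem_Nb {h x : ℝ} {Y : Finset ℝ} : x ∈ Nb h Y ↔ ∃ y ∈ Y, y - h < x ∧ x < y + h := by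
  simp only [Nb, mem_iUnion, mem_Ioo, exists_prop]

theorem split {A B : Set ℝ} (hA : volume A ≠ ⊤) (hB : MeasurableSet B) :
    volume.real (A ∩ B) + volume.real (A \ B) = volume.real A :=
  measureReal_inter_add_sdiff hB hA

theorem level {T : Set ℝ} {lo hi h s ε : ℝ} (hT : T ⊆ Icc lo hi) (hh : 0 < h) (hs : 0 ≤ s)
    (hsh : 2 * s ≤ h) (hε : 0 < ε) :
    ∃ Y : Finset ℝ, ↑Y ⊆ T ∧ (∀ x ∈ Y, ∀ y ∈ Y, x ≠ y → x + h + 2 * s ≤ y ∨ y + h + 2 * s ≤ x) ∧
      volume.real (T \ Nb h Y) ≤ s * Y.card + ε := by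
  classical
  by_contra hc
  push Not at hc
  have hf : volume T ≠ ⊤ := ne_top_of_le_ne_top measure_Icc_lt_top.ne (measure_mono hT)
  have hf' : ∀ {A : Set ℝ}, A ⊆ T → volume A ≠ ⊤ := fun hA =>
    ne_top_of_le_ne_top hf (measure_mono hA)
  set S : ℝ → Set ℝ := fun q => {v | ∃ Y : Finset ℝ, ↑Y ⊆ T ∧
    (∀ x ∈ Y, ∀ y ∈ Y, x ≠ y → x + h + 2 * s ≤ y ∨ y + h + 2 * s ≤ x) ∧
    (∀ y ∈ Y, y + h + 2 * s < q) ∧ v = s * Y.card + volume.real (T ∩ Nb h Y ∩ Iic (q - h))} with hS
  have ub : ∀ q, ∀ v ∈ S q, v ≤ volume.real T - ε := by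
    rintro q v ⟨Y, h1, h2, -, rfl⟩
    have a1 := hc Y h1 h2
    have a2 := split hf (Nb_meas h Y)
    have a3 : volume.real (T ∩ Nb h Y ∩ Iic (q - h)) ≤ volume.real (T ∩ Nb h Y) :=
      measureReal_mono inter_subset_left (hf' inter_subset_left)
    linarith
  have bd : ∀ q, BddAbove (S q) := fun q => ⟨_, ub q⟩
  have z0 : ∀ q, (0 : ℝ) ∈ S q := fun q => ⟨∅, by simp, by simp, by simp, by simp [Nb]⟩
  have hL : ∀ a b, a ≤ b → W T b - W T a ≤ b - a := fun a b hab => by linarith [W_lip hf hab]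
  have h0 : ∀ t, t ≤ lo - 1 → W T t = 0 := fun t ht => by
    have : T ∩ Iic t = ∅ := eq_empty_of_forall_notMem fun x hx => by
      linarith [(hT hx.1).1, mem_Iic.1 hx.2]
    simp [W, this]
  have main := core (fun q => sSup (S q)) (W T) (lo - 1) h s hh hs hsh
    (fun q => le_csSup (bd q) (z0 q)) (fun _ _ hab => W_mono hf hab) hL
    (fun _ => measureReal_nonneg) h0 ?_ (hi + h + 2 * s)
  · have e : T ∩ Iic (hi + h + 2 * s - h - 2 * s) = T :=
      inter_eq_left.2 fun x hx => by have := (hT hx).2; simp only [mem_Iic]; linarith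
    have := csSup_le ⟨_, z0 _⟩ (ub (hi + h + 2 * s))
    simp only [W, e] at main
    linarith
  intro w hw
  have hb : BddBelow {t | W T w ≤ W T t} := ⟨lo - 1, fun t ht => by
    by_contra hq
    have := h0 t (not_le.1 hq).le
    simp only [mem_ofPred_eq] at ht
    linarith⟩
  set p := sInf {t | W T w ≤ W T t} with hp
  have p1 : p ≤ w := csInf_le hb (le_refl (W T w))
  have p2 : W T p = W T w := by
    refine le_antisymm (W_mono hf p1) (le_of_forall_pos_le_add fun η hη => ?_)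
    obtain ⟨t, ht, ht'⟩ := exists_lt_of_csInf_lt (s := {t | W T w ≤ W T t}) ⟨w, le_refl (W T w)⟩
      (show sInf _ < p + η by linarith)
    have := hL p t (csInf_le hb ht)
    simp only [mem_ofPred_eq] at ht
    linarith
  have p3 : ∀ m < p, ∃ y ∈ T, m < y ∧ y < p := by
    intro m hm
    have a1 : W T m < W T p := by
      by_contra hq
      exact absurd (csInf_le hb (show W T w ≤ W T m by linarith [not_lt.1 hq])) (not_le.2 hm)
    have a2 := hL m p hm.le
    have a3 := hL (p - (W T p - W T m) / 2) p (by linarith)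
    by_contra hq
    push Not at hq
    have : W T (p - (W T p - W T m) / 2) ≤ W T m := measureReal_mono (fun x hx => ⟨hx.1, by
      by_contra hr
      have := hq x hx.1 (not_le.1 hr)
      linarith [mem_Iic.1 hx.2]⟩) (W_fin hf m)
    linarith
  refine ⟨p, p1, p2, fun q hq => ?_⟩
  have : sSup (S p) ≤ sSup (S q) - (s + min (W T (q - h)) (W T (p + h)) - W T (p - h)) := by
    refine csSup_le ⟨_, z0 _⟩ ?_
    rintro v ⟨Y, h1, h2, h3, rfl⟩
    refine le_of_forall_pos_le_add fun η hη => ?_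
    obtain ⟨y, hy, y1, y2⟩ := p3 (Y.fold max (p - η) fun y => y + h + 2 * s)
      ((Finset.fold_max_lt _).2 ⟨by linarith, h3⟩)
    obtain ⟨y3, y4⟩ := (Finset.fold_max_lt _).1 y1
    have yn : y ∉ Y := fun hq => by linarith [y4 y hq]
    have mem : s * (insert y Y).card + volume.real (T ∩ Nb h (insert y Y) ∩ Iic (q - h)) ∈ S q := by
      refine ⟨insert y Y, by rw [Finset.coe_insert]; exact insert_subset hy h1, ?_, ?_, rfl⟩
      · intro a ha b hb hab
        rcases Finset.mem_insert.1 ha with rfl | ha' <;>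
          rcases Finset.mem_insert.1 hb with rfl | hb'
        · exact absurd rfl hab
        · exact Or.inr (y4 b hb').le
        · exact Or.inl (y4 a ha').le
        · exact h2 a ha' b hb' hab
      · intro a ha
        rcases Finset.mem_insert.1 ha with rfl | ha'
        · linarith
        · linarith [h3 a ha']
    have b1 := le_csSup (bd q) mem
    rw [Finset.card_insert_of_notMem yn] at b1
    push_cast at b1
    set X := T ∩ Nb h (insert y Y) ∩ Iic (q - h) with hX
    have hXT : X ⊆ T := inter_subset_left.trans inter_subset_left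
    have b2 := split (hf' hXT) (measurableSet_Iic (a := p - h))
    have b3 : volume.real (T ∩ Nb h Y ∩ Iic (p - h)) ≤ volume.real (X ∩ Iic (p - h)) := by
      refine measureReal_mono (fun x hx => ⟨⟨⟨hx.1.1, ?_⟩, ?_⟩, hx.2⟩)
        (hf' (inter_subset_left.trans hXT))
      · obtain ⟨a, ha, hb⟩ := mem_Nb.1 hx.1.2
        exact mem_Nb.2 ⟨a, Finset.mem_insert_of_mem ha, hb⟩
      · have := mem_Iic.1 hx.2
        simp only [mem_Iic]; linarith
    have b4 : W T (min (q - h) (p + h - η)) ≤ W T (p - h) + volume.real (X \ Iic (p - h)) := by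
      refine le_trans (measureReal_mono (fun x hx => ?_) (measure_union_ne_top (W_fin hf _)
        (hf' (sdiff_subset.trans hXT)))) (measureReal_union_le _ _)
      have := le_min_iff.1 (mem_Iic.1 hx.2)
      rcases le_or_gt x (p - h) with hr | hr
      · exact Or.inl ⟨hx.1, hr⟩
      · exact Or.inr ⟨⟨⟨hx.1, mem_Nb.2 ⟨y, Finset.mem_insert_self _ _, by linarith, by linarith⟩⟩,
          this.1⟩, not_le.2 hr⟩
    have b5 : min (W T (q - h)) (W T (p + h)) - η ≤ W T (min (q - h) (p + h - η)) := by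
      rcases le_total (q - h) (p + h - η) with hr | hr
      · rw [min_eq_left hr]; linarith [min_le_left (W T (q - h)) (W T (p + h))]
      · rw [min_eq_right hr]
        linarith [min_le_right (W T (q - h)) (W T (p + h)), hL (p + h - η) (p + h) (by linarith)]
    linarith
  linarith

theorem levels {L : Set ℝ} {ρ a lo hi : ℝ} {δ : ℝ → ℝ} (hρ : 1 < ρ) (ha : 0 < a)
    (hL : ∀ x ∈ L, ∀ y ∈ L, x < y → ρ * x ≤ y) (n : ℕ) : ∀ (A : Set ℝ) (ε : ℝ), 0 < ε →
    A ⊆ Icc lo hi → (∀ x ∈ A, δ x ∈ L ∧ a ≤ δ x ∧ δ x < ρ ^ n * a) →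
    ∃ F : Finset ℝ, ↑F ⊆ A ∧ Dis δ F ∧
      volume.real A ≤ (5 * ρ + 3) / (4 * ρ) * ∑ x ∈ F, 2 * δ x + ε := by
  classical
  induction n with
  | zero =>
    intro A ε hε _ h
    have : A = ∅ := eq_empty_of_forall_notMem fun x hx => by
      have := h x hx
      simp at this
      linarith
    exact ⟨∅, by simp, sep_empty _ _, by simp [this, hε.le]⟩
  | succ n ih =>
    intro A ε hε hA h
    by_cases hx : ∀ x ∈ A, δ x < ρ ^ n * a
    · exact ih A ε hε hA fun x h1 => ⟨(h x h1).1, (h x h1).2.1, hx x h1⟩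
    push Not at hx
    obtain ⟨x₀, hx₀, hR⟩ := hx
    set R := δ x₀ with hRd
    have ρ0 : 0 < ρ := by linarith
    have R0 : 0 < R := ha.trans_le (h x₀ hx₀).2.1
    have b0 : 0 < R / ρ := div_pos R0 ρ0
    have b1 : R / ρ ≤ R := div_le_self R0.le hρ.le
    have low : ∀ x ∈ A, δ x ≠ R → δ x ≤ R / ρ ∧ δ x < ρ ^ n * a := by
      intro x h1 h2
      rcases lt_or_gt_of_ne h2 with h3 | h3
      · have a1 := hL _ (h x h1).1 _ (h x₀ hx₀).1 h3
        have a2 := (h x₀ hx₀).2.2
        rw [pow_succ] at a2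
        exact ⟨(le_div_iff₀ ρ0).2 (by linarith), by nlinarith⟩
      · have a1 := hL _ (h x₀ hx₀).1 _ (h x h1).1 h3
        have a2 := (h x h1).2.2
        rw [pow_succ] at a2
        nlinarith
    obtain ⟨Y, y1, y2, y3⟩ := level (T := {x ∈ A | δ x = R}) (h := R + R / ρ)
      (s := (R - R / ρ) / 2) (ε := ε / 2) ((sep_subset _ _).trans hA) (by linarith) (by linarith)
      (by linarith) (by linarith)
    obtain ⟨F, f1, f2, f3⟩ := ih {x ∈ A | δ x ≠ R ∧ x ∉ Nb (R + R / ρ) Y} (ε / 2) (by linarith)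
      ((sep_subset _ _).trans hA) fun x h1 => ⟨(h x h1.1).1, (h x h1.1).2.1, (low x h1.1 h1.2.1).2⟩
    have cross : ∀ x ∈ F, ∀ y ∈ Y, x + δ x ≤ y - δ y ∨ y + δ y ≤ x - δ x := by
      intro x h1 y h2
      have a1 := f1 h1
      have a2 := (low x a1.1 a1.2.1).1
      have a3 : δ y = R := (y1 h2).2
      by_contra hq
      rw [not_or, not_le, not_le] at hq
      exact a1.2.2 (mem_Nb.2 ⟨y, h2, by linarith [hq.1], by linarith [hq.2]⟩)
    have dj : Disjoint F Y := Finset.disjoint_left.2 fun x h1 h2 => (f1 h1).2.1 (y1 h2).2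
    refine ⟨F ∪ Y, ?_, ?_, ?_⟩
    · rw [Finset.coe_union]
      exact union_subset (f1.trans (sep_subset _ _)) (y1.trans (sep_subset _ _))
    · intro x h1 y h2 hxy
      rcases Finset.mem_union.1 h1 with h1 | h1 <;> rcases Finset.mem_union.1 h2 with h2 | h2
      · exact f2 x h1 y h2 hxy
      · exact cross x h1 y h2
      · exact (cross y h2 x h1).symm
      · have a1 : δ x = R := (y1 h1).2
        have a2 : δ y = R := (y1 h2).2
        rcases y2 x h1 y h2 hxy with h3 | h3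
        · left; simp only; linarith
        · right; simp only; linarith
    · have hf : ∀ {B : Set ℝ}, B ⊆ A → volume B ≠ ⊤ := fun hB =>
        ne_top_of_le_ne_top measure_Icc_lt_top.ne (measure_mono (hB.trans hA))
      have n1 : volume (Nb (R + R / ρ) Y) ≤ ENNReal.ofReal (∑ _x ∈ Y, 2 * (R + R / ρ)) :=
        vol_le (δ := fun _ => R + R / ρ) fun _ _ => by linarith
      have n2 : volume.real (Nb (R + R / ρ) Y) ≤ Y.card * (2 * (R + R / ρ)) := by
        have := ENNReal.toReal_le_of_le_ofReal (Finset.sum_nonneg fun _ _ => by linarith) n1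
        rwa [Finset.sum_const, nsmul_eq_mul] at this
      have n3 : volume.real (A ∩ Nb (R + R / ρ) Y) ≤ volume.real (Nb (R + R / ρ) Y) :=
        measureReal_mono inter_subset_right (ne_top_of_le_ne_top ENNReal.ofReal_ne_top n1)
      have n4 := split (hf subset_rfl) (Nb_meas (R + R / ρ) Y)
      have n5 : volume.real (A \ Nb (R + R / ρ) Y) ≤
          volume.real {x ∈ A | δ x ≠ R ∧ x ∉ Nb (R + R / ρ) Y} +
            volume.real ({x ∈ A | δ x = R} \ Nb (R + R / ρ) Y) := by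
        refine le_trans (measureReal_mono (fun x h1 => ?_) (measure_union_ne_top
          (hf (sep_subset _ _)) (hf (sdiff_subset.trans (sep_subset _ _)))))
          (measureReal_union_le _ _)
        by_cases h2 : δ x = R
        · exact Or.inr ⟨⟨h1.1, h2⟩, h1.2⟩
        · exact Or.inl ⟨h1.1, h2, h1.2⟩
      have n6 : ∑ x ∈ Y, 2 * δ x = Y.card * (2 * R) := by
        rw [Finset.sum_congr rfl fun x h1 => by rw [show δ x = R from (y1 h1).2], Finset.sum_const,
          nsmul_eq_mul]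
      have n7 : (5 * ρ + 3) / (4 * ρ) * (Y.card * (2 * R)) =
          Y.card * (2 * (R + R / ρ)) + (R - R / ρ) / 2 * Y.card := by
        field_simp
        ring
      rw [Finset.sum_union dj, mul_add, n6, n7]
      linarith

theorem good_lac {L : Set ℝ} {ρ c : ℝ} (hρ : 1 < ρ) (hL : ∀ x ∈ L, ∀ y ∈ L, x < y → ρ * x ≤ y)
    (hc : c < 4 * ρ / (5 * ρ + 3)) {E : Set ℝ} {δ : ℝ → ℝ} (hE : IsCompact E)
    (hp : ∀ x ∈ E, 0 < δ x) (h : ∀ x ∈ E, δ x ∈ L) : Good c E δ := by
  have hf : volume E ≠ ⊤ := hE.measure_lt_top.ne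
  set V := (volume E).toReal with hV
  have V0 : 0 ≤ V := ENNReal.toReal_nonneg
  by_cases h1 : c * V ≤ 0
  · exact good_of hp hf (F := ∅) (by simp) (sep_empty _ _) (by simpa using h1)
  by_cases h2 : ∃ x ∈ E, c * V ≤ 2 * δ x
  · obtain ⟨x, hx, h2⟩ := h2
    exact good_of hp hf (F := {x}) (by simpa using hx)
      (fun a ha b hb hab => absurd ((Finset.mem_singleton.1 ha).trans
        (Finset.mem_singleton.1 hb).symm) hab) (by simpa using h2)
  push Not at h1 h2
  set κ := (5 * ρ + 3) / (4 * ρ) with hκ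
  have κ0 : 0 < κ := div_pos (by linarith) (by linarith)
  have V1 : 0 < V := V0.lt_of_ne fun hq => by rw [← hq] at h1; simp at h1
  have cκ : κ * (c * V) < V := by
    have a1 := (lt_div_iff₀ (by linarith : 0 < 5 * ρ + 3)).1 hc
    have a2 : κ * c < 1 := by
      rw [hκ, div_mul_eq_mul_div, div_lt_one (by linarith)]
      linarith
    nlinarith
  have mono : Monotone fun k : ℕ => {x ∈ E | 1 / ((k : ℝ) + 1) ≤ δ x} := fun i j hij x hx =>
    ⟨hx.1, (Nat.one_div_le_one_div hij).trans hx.2⟩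
  have un : ⋃ k : ℕ, {x ∈ E | 1 / ((k : ℝ) + 1) ≤ δ x} = E := by
    refine Subset.antisymm (iUnion_subset fun _ => sep_subset _ _) fun x hx => ?_
    obtain ⟨k, hk⟩ := exists_nat_one_div_lt (hp x hx)
    exact mem_iUnion.2 ⟨k, hx, hk.le⟩
  have lt : ENNReal.ofReal ((κ * (c * V) + V) / 2) < volume E :=
    (ENNReal.ofReal_lt_iff_lt_toReal (by nlinarith [mul_pos κ0 h1]) hf).2 (by linarith)
  rw [← un, mono.measure_iUnion, lt_iSup_iff] at lt
  obtain ⟨k, hk⟩ := lt
  have k0 : (0 : ℝ) < 1 / ((k : ℝ) + 1) := Nat.one_div_pos_of_nat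
  obtain ⟨n, hn⟩ := pow_unbounded_of_one_lt (c * V / (1 / ((k : ℝ) + 1))) hρ
  obtain ⟨lo, hi, hb⟩ : ∃ lo hi, E ⊆ Icc lo hi :=
    ⟨sInf E, sSup E, subset_Icc_csInf_csSup hE.bddBelow hE.bddAbove⟩
  obtain ⟨F, f1, f2, f3⟩ := levels (δ := δ) hρ k0 hL n {x ∈ E | 1 / ((k : ℝ) + 1) ≤ δ x}
    ((V - κ * (c * V)) / 2) (by linarith) ((sep_subset _ _).trans hb) fun x hx =>
      ⟨h x hx.1, hx.2, by linarith [(div_lt_iff₀ k0).1 hn, h2 x hx.1, hp x hx.1]⟩
  have := (ENNReal.ofReal_lt_iff_lt_toReal (by nlinarith [mul_pos κ0 h1])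
    (ne_top_of_le_ne_top hf (measure_mono (sep_subset _ _)))).1 hk
  refine good_of hp hf (f1.trans (sep_subset _ _)) f2 (le_of_mul_le_mul_left ?_ κ0)
  simp only [Measure.real] at f3
  linarith

end Pool.Agent.MP_ebd0f7_an.Lac
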