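import Pool.Agent.MP_ebd0f7_an.RRDefs
import Mathlib.MeasureTheory.Measure.Real

/-! Comb examples: upper bounds for admissible constants. -/

namespace Pool.Agent.MP_ebd0f7_an

open Set MeasureTheory

theorem Good.le_measure {c : ℝ} {E : Set ℝ} {δ : ℝ → ℝ} (h : Good c E δ) (μ : Measure ℝ)
    (hμ : ∀ x ∈ E, ENNReal.ofReal (2 * δ x) ≤ μ (Ioo (x - δ x) (x + δ x))) :
    ENNReal.ofReal c * volume E ≤ μ univ := by
  obtain ⟨T, hT, hc, hd, h⟩ := h
  refine h.trans (le_trans (ENNReal.tsum_le_tsum fun x => ?_)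
    ((measure_biUnion hc hd fun _ _ => measurableSet_Ioo).ge.trans (measure_mono (subset_univ _))))
  refine le_trans (le_of_eq ?_) (hμ x (hT x.2))
  rw [Real.volume_Ioo]
  congr 1
  ring

/-- The distance to the nearest integer. -/
noncomputable def U (x : ℝ) : ℝ := |x - round x|

theorem U_lip (x y : ℝ) : U x - U y ≤ |x - y| := by
  have h1 := round_le x (round y)
  have h2 := abs_sub_le x y (round y)
  unfold U
  linarith

theorem U_abs (x y : ℝ) : |U x - U y| ≤ |x - y| :=
  abs_sub_le_iff.2 ⟨U_lip x y, (U_lip y x).trans (abs_sub_comm _ _).le⟩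

theorem U_eq (x : ℝ) : U x = min (x - ⌊x⌋) (⌊x⌋ + 1 - x) := by
  rw [U, abs_sub_round_eq_min, Int.fract]
  congr 1
  ring

theorem comb {c m : ℝ} {E : Set ℝ} {δ : ℝ → ℝ} {N : ℕ} (h : Good c E δ) (hm : 0 ≤ m)
    (hE : E ⊆ Icc 0 (N : ℝ))
    (hδ : ∀ x ∈ E, (2 * δ x ≤ m ∧ U x < δ x) ∨ (δ x ≤ m ∧ 1 - U x < δ x)) :
    c * volume.real E ≤ m * (N + 2) := by
  have hfin : volume E ≠ ⊤ := ne_top_of_le_ne_top measure_Icc_lt_top.ne (measure_mono hE)
  have key := h.le_measure
    (∑ j ∈ Finset.Icc (0 : ℤ) (N + 1), ENNReal.ofReal m • Measure.dirac (j : ℝ)) fun x hx => ?_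
  · simp only [Measure.finsetSum_apply, Measure.smul_apply, measure_univ, smul_eq_mul, mul_one,
      Finset.sum_const, Int.card_Icc, nsmul_eq_mul] at key
    rw [show ((N : ℤ) + 1 + 1 - 0).toNat = N + 2 by omega, ← ENNReal.ofReal_natCast,
      ← ENNReal.ofReal_mul (by positivity), ← ENNReal.ofReal_toReal hfin, mul_comm,
      ← ENNReal.ofReal_mul ENNReal.toReal_nonneg, ENNReal.ofReal_le_ofReal_iff (by positivity)] at key
    push_cast at key
    rw [Measure.real]
    linarith
  have h0 : 0 ≤ ⌊x⌋ := Int.floor_nonneg.2 (hE hx).1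
  have h1 : ⌊x⌋ ≤ N := by
    have := (Int.floor_le x).trans (hE hx).2
    exact_mod_cast this
  have h2 := Int.floor_le x
  have h3 := Int.lt_floor_add_one x
  have one : ∀ j : ℤ, (j : ℝ) ∈ Ioo (x - δ x) (x + δ x) → (ENNReal.ofReal m • Measure.dirac (j : ℝ))
      (Ioo (x - δ x) (x + δ x)) = ENNReal.ofReal m := fun j hj => by
    rw [Measure.smul_apply, Measure.dirac_apply_of_mem hj, smul_eq_mul, mul_one]
  rw [Measure.finsetSum_apply]
  have h4 := U_eq x
  have sg := fun (i : ℤ) (h1 : 0 ≤ i) (h2 : i ≤ N + 1) => Finset.single_le_sum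
    (f := fun j : ℤ => (ENNReal.ofReal m • Measure.dirac (j : ℝ)) (Ioo (x - δ x) (x + δ x)))
    (fun _ _ => bot_le) (Finset.mem_Icc.2 ⟨h1, h2⟩)
  rcases hδ x hx with ⟨h5, h6⟩ | ⟨h5, h6⟩
  · refine (ENNReal.ofReal_le_ofReal h5).trans ?_
    rcases min_lt_iff.1 (h4 ▸ h6) with h7 | h7
    · exact (one ⌊x⌋ ⟨by linarith, by linarith⟩).ge.trans (sg _ h0 (by omega))
    · exact (one (⌊x⌋ + 1) ⟨by push_cast; linarith, by push_cast; linarith⟩).ge.trans
        (sg _ (by omega) (by omega))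
  · have h7 := min_le_left (x - ⌊x⌋) (⌊x⌋ + 1 - x)
    have h8 := min_le_right (x - ⌊x⌋) (⌊x⌋ + 1 - x)
    refine le_trans ?_ (Finset.sum_le_sum_of_subset (s := {⌊x⌋, ⌊x⌋ + 1}) fun j hj => ?_)
    · rw [Finset.sum_pair (by omega), one ⌊x⌋ ⟨by linarith, by linarith⟩,
        one (⌊x⌋ + 1) ⟨by push_cast; linarith, by push_cast; linarith⟩, ← ENNReal.ofReal_add hm hm]
      exact ENNReal.ofReal_le_ofReal (by linarith)
    · simp only [Finset.mem_insert, Finset.mem_singleton] at hj
      exact Finset.mem_Icc.2 (by omega)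

theorem lim {c α β m : ℝ} (h : ∀ N : ℕ, c * (α * N - β) ≤ m * (N + 2)) : c * α ≤ m := by
  by_contra hn
  have h1 : 0 < c * α - m := by linarith [not_le.1 hn]
  obtain ⟨N, hN⟩ := exists_nat_gt ((2 * m + c * β) / (c * α - m))
  rw [div_lt_iff₀ h1] at hN
  nlinarith [h N]

/-- Two radii with ratio at most two. -/
theorem ex_two {c ρ : ℝ} (h1 : 1 ≤ ρ) (h2 : ρ ≤ 2)
    (h : c ∈ Adm fun E δ => ∃ a, ∀ x ∈ E, δ x = a ∨ δ x = ρ * a) : c ≤ 2 / (1 + ρ) := by
  refine le_of_forall_pos_le_add fun ε hε => ?_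
  set a := 1 / (1 + ρ) + ε / 2 with ha
  have h3 : (1 + ρ) * a = 1 + (1 + ρ) * (ε / 2) := by rw [ha]; field_simp
  have h4 : 0 < a := by positivity
  have h5 : c * 1 ≤ 2 * a := lim (β := 0) fun N => by
    have := comb (m := 2 * a) (N := N) (h (Icc 0 N) (fun x => if U x < a then a else ρ * a)
      isCompact_Icc (fun x _ => by split_ifs <;> positivity)
      ⟨a, fun x _ => by by_cases h : U x < a <;> simp [h]⟩) (by linarith) subset_rfl fun x _ => by
        split_ifs with h6
        · exact Or.inl ⟨le_rfl, h6⟩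
        · exact Or.inr ⟨by nlinarith, by nlinarith [not_lt.1 h6]⟩
    simpa using this
  rw [ha] at h5
  calc c ≤ 2 * (1 / (1 + ρ) + ε / 2) := by linarith
    _ = _ := by ring

/-- Lipschitz radii. -/
theorem ex_lip {c L : ℝ} (hL : 1 ≤ L)
    (h : c ∈ Adm fun E δ => ∀ x ∈ E, ∀ y ∈ E, |δ x - δ y| ≤ L * |x - y|) :
    c ≤ 2 * L / (3 * L - 1) := by
  rcases le_or_gt c 0 with hc | hc
  · exact hc.trans (div_nonneg (by linarith) (by linarith))
  set w := 1 / (3 * L + 1) with hw
  have w0 : 0 < w := by rw [hw]; positivity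
  have w1 : (3 * L + 1) * w = 1 := by rw [hw]; field_simp
  suffices c * (1 - 2 * w) ≤ 2 * (L * w) by
    rw [le_div_iff₀ (by linarith)]
    have h1 : 1 - 2 * w = (3 * L - 1) * w := by linarith
    rw [h1] at this
    exact le_of_mul_le_mul_right (by linarith) w0
  refine le_of_forall_pos_le_add fun η hη => lim (β := 2 * w) fun N => ?_
  have hU : Continuous U := (LipschitzWith.of_dist_le' (K := 1) fun x y => by
    simpa [Real.dist_eq] using U_abs x y).continuous
  set E := Icc (0 : ℝ) N ∩ (U ⁻¹' Iic (L * w) ∪ U ⁻¹' Ici (L * w + w)) with hE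
  have U0 : ∀ x, 0 ≤ U x ∧ U x ≤ 1 / 2 := fun x => ⟨abs_nonneg _, abs_sub_round x⟩
  have k1 := comb (m := 2 * (L * w) + η) (N := N) (h E
    (fun x => min (max (U x) (L * w + L * (U x - L * w))) (1 - U x) + η / 2)
    (isCompact_Icc.inter_right ((isClosed_Iic.preimage hU).union (isClosed_Ici.preimage hU)))
    (fun x _ => add_pos_of_nonneg_of_pos (le_min (le_max_of_le_left (U0 x).1)
      (by linarith [(U0 x).2])) (by linarith)) fun x _ y _ => ?_) (by positivity)
    inter_subset_left fun x hx => ?_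
  · refine le_trans (mul_le_mul_of_nonneg_left ?_ hc.le) k1
    have k2 : Icc (0 : ℝ) N ⊆ E ∪ ⋃ j ∈ Finset.range (N + 1),
        (Ioo (j + L * w) (j + L * w + w) ∪ Ioo (j + 1 - L * w - w) (j + 1 - L * w)) := by
      intro x hx
      by_cases h2 : x ∈ E
      · exact Or.inl h2
      have h3 : L * w < U x ∧ U x < L * w + w := by
        by_contra h3
        exact h2 ⟨hx, (not_and_or.1 h3).imp not_lt.1 not_lt.1⟩
      have h4 : ((⌊x⌋₊ : ℕ) : ℝ) = ⌊x⌋ := natCast_floor_eq_intCast_floor hx.1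
      refine Or.inr (mem_iUnion₂.2 ⟨⌊x⌋₊, Finset.mem_range.2
        (Nat.lt_succ_of_le (Nat.floor_le_of_le hx.2)), ?_⟩)
      rw [h4]
      rw [U_eq, lt_min_iff, min_lt_iff] at h3
      exact h3.2.imp (fun h5 => ⟨by linarith [h3.1.1], by linarith⟩)
        fun h5 => ⟨by linarith, by linarith [h3.1.2]⟩
    have k3 := (measure_mono (μ := volume) k2).trans ((measure_union_le _ _).trans
      (add_le_add le_rfl ((measure_biUnion_finset_le _ _).trans
        (Finset.sum_le_card_nsmul _ _ (ENNReal.ofReal (2 * w)) fun j _ => ?_))))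
    · have hfin : volume E ≠ ⊤ :=
        ne_top_of_le_ne_top measure_Icc_lt_top.ne (measure_mono inter_subset_left)
      rw [Real.volume_Icc, Finset.card_range, nsmul_eq_mul, ← ENNReal.ofReal_natCast,
        ← ENNReal.ofReal_mul (by positivity), ← ENNReal.ofReal_toReal hfin,
        ← ENNReal.ofReal_add ENNReal.toReal_nonneg (by positivity),
        ENNReal.ofReal_le_ofReal_iff (by positivity)] at k3
      push_cast at k3
      rw [Measure.real]
      linarith
    · refine (measure_union_le _ _).trans (le_of_eq ?_)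
      rw [Real.volume_Ioo, Real.volume_Ioo, ← ENNReal.ofReal_add (by linarith) (by linarith)]
      congr 1
      ring
  · have h1 := U_abs x y
    have h2 : |x - y| ≤ L * |x - y| := le_mul_of_one_le_left (abs_nonneg _) hL
    rw [add_sub_add_right_eq_sub]
    refine (abs_min_sub_min_le_max _ _ _ _).trans (max_le
      ((abs_max_sub_max_le_max _ _ _ _).trans (max_le (h1.trans h2) ?_)) ?_)
    · rw [add_sub_add_left_eq_sub, ← mul_sub, sub_sub_sub_cancel_right, abs_mul,
        abs_of_nonneg (by linarith : 0 ≤ L)]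
      exact mul_le_mul_of_nonneg_left h1 (by linarith)
    · rw [sub_sub_sub_cancel_left, abs_sub_comm]
      exact h1.trans h2
  · rcases hx.2 with h1 | h1
    · have h2 : U x ≤ L * w := h1
      rw [max_eq_left (by nlinarith), min_eq_left (by linarith [(U0 x).2])]
      exact Or.inl ⟨by linarith, by linarith⟩
    · have h2 : L * w + w ≤ U x := h1
      rw [min_eq_right (le_max_of_le_right (by nlinarith))]
      exact Or.inr ⟨by linarith, by linarith⟩

end Pool.Agent.MP_ebd0f7_an
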