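import Pool.Agent.MP_ebd0f7_an.RRLip
import Pool.Agent.MP_ebd0f7_an.RREx

/-! Radii that are `L`-Lipschitz on `E`: bounds for the best constant, exact for `L ≤ 1`. -/

namespace Pool.Agent.MP_ebd0f7_an.LipRadiiParked

open Set Pool.Agent.MP_ebd0f7_an

theorem result (L : NNReal) :
    (max (L : ℝ) 1 + 1) / (2 * max (L : ℝ) 1) ∈ Adm (fun E δ => LipschitzOnWith L δ E) ∧
    ∀ c ∈ Adm (fun E δ => LipschitzOnWith L δ E), c ≤ 2 * max (L : ℝ) 1 / (3 * max (L : ℝ) 1 - 1) := by
  refine ⟨fun E δ hE hp h => lip_good (le_max_right _ _) hE hp fun x hx y hy =>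
    (h.dist_le_mul x hx y hy).trans (mul_le_mul_of_nonneg_right (le_max_left _ _) dist_nonneg),
    fun c hc => ?_⟩
  rcases le_total (L : ℝ) 1 with h | h
  · have := ex_two (c := c) le_rfl one_le_two fun E δ hE hp ⟨a, h1⟩ => hc E δ hE hp
      (LipschitzOnWith.of_dist_le_mul fun x hx y hy => by
        have h2 : ∀ z ∈ E, δ z = a := fun z hz => by simpa using h1 z hz
        rw [h2 x hx, h2 y hy, dist_self]
        positivity)
    rw [max_eq_right h]
    linarith
  · rw [max_eq_left h]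
    exact ex_lip h fun E δ hE hp h1 => hc E δ hE hp (LipschitzOnWith.of_dist_le_mul h1)

end Pool.Agent.MP_ebd0f7_an.LipRadiiParked
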