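import Pool.Agent.MP_ebd0f7_an.RRDefs
import Mathlib.MeasureTheory.Measure.Regular

/-! Greedy families of centred intervals. -/

namespace Pool.Agent.MP_ebd0f7_an

open Set MeasureTheory

/-- Separated intervals `(l x, r x)`. -/
def Sep (l r : ℝ → ℝ) (F : Finset ℝ) : Prop := ∀ x ∈ F, ∀ y ∈ F, x ≠ y → r x ≤ l y ∨ r y ≤ l x

theorem Sep.insert {l r : ℝ → ℝ} {F : Finset ℝ} (h : Sep l r F) {x : ℝ}
    (hx : ∀ y ∈ F, r x ≤ l y ∨ r y ≤ l x) : Sep l r (insert x F) := by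
  intro y hy z hz hyz
  rcases Finset.mem_insert.1 hy with rfl | hy' <;> rcases Finset.mem_insert.1 hz with rfl | hz'
  · exact absurd rfl hyz
  · exact hx z hz'
  · exact (hx y hy').symm
  · exact h y hy' z hz' hyz

theorem sep_empty (l r : ℝ → ℝ) : Sep l r ∅ := fun _ h => absurd h (Finset.notMem_empty _)

/-- Separated centred intervals. -/
abbrev Dis (δ : ℝ → ℝ) (F : Finset ℝ) : Prop := Sep (fun x => x - δ x) (fun x => x + δ x) F

theorem vol_I (δ : ℝ → ℝ) (x : ℝ) :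
    volume (Ioo (x - δ x) (x + δ x)) = ENNReal.ofReal (2 * δ x) := by
  rw [Real.volume_Ioo]; congr 1; ring

theorem good_of {c : ℝ} {E : Set ℝ} {δ : ℝ → ℝ} (hp : ∀ x ∈ E, 0 < δ x) (hE : volume E ≠ ⊤)
    {F : Finset ℝ} (hF : ↑F ⊆ E) (hd : Dis δ F)
    (h : c * (volume E).toReal ≤ ∑ x ∈ F, 2 * δ x) : Good c E δ := by
  refine ⟨F, hF, F.countable_toSet, fun x hx y hy hxy => ?_, ?_⟩
  · refine Set.disjoint_left.2 fun t h1 h2 => ?_
    rcases hd x hx y hy hxy with h | h <;> simp only at h <;> linarith [h1.1, h1.2, h2.1, h2.2]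
  · rw [Finset.tsum_subtype' F fun x => volume (Ioo (x - δ x) (x + δ x))]
    simp only [vol_I]
    rw [← ENNReal.ofReal_sum_of_nonneg fun x hx => by linarith [hp x (hF hx)],
      ← ENNReal.ofReal_toReal hE, mul_comm, ← ENNReal.ofReal_mul ENNReal.toReal_nonneg, mul_comm]
    exact ENNReal.ofReal_le_ofReal h

theorem vol_le {δ : ℝ → ℝ} {F : Finset ℝ} (hp : ∀ x ∈ F, 0 < δ x) :
    volume (⋃ x ∈ F, Ioo (x - δ x) (x + δ x)) ≤ ENNReal.ofReal (∑ x ∈ F, 2 * δ x) := by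
  refine (measure_biUnion_finset_le _ _).trans (le_of_eq ?_)
  simp only [vol_I]
  rw [ENNReal.ofReal_sum_of_nonneg fun x hx => by linarith [hp x hx]]

/-- The greedy choice from the left covers all left end points. -/
theorem greedy {E : Set ℝ} (hE : IsCompact E) {l r : ℝ → ℝ} (hl : ContinuousOn l E) {η : ℝ}
    (h : ∀ x ∈ E, l x + η ≤ r x) (n : ℕ) : ∀ t, (∀ y ∈ E, l y < t + η * n) →
    ∃ F : Finset ℝ, ↑F ⊆ E ∧ (∀ x ∈ F, t ≤ l x) ∧ Sep l r F ∧
      ∀ y ∈ E, t ≤ l y → ∃ x ∈ F, l x ≤ l y ∧ l y ≤ r x := by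
  induction n with
  | zero =>
    intro t ht
    refine ⟨∅, by simp, by simp, sep_empty _ _, fun y hy h1 => ?_⟩
    have := ht y hy
    simp at this
    linarith
  | succ n ih =>
    intro t ht
    rcases (E ∩ l ⁻¹' Ici t).eq_empty_or_nonempty with h0 | h0
    · exact ⟨∅, by simp, by simp, sep_empty _ _, fun y hy h1 =>
        absurd (show y ∈ E ∩ l ⁻¹' Ici t from ⟨hy, h1⟩) (by rw [h0]; simp)⟩
    have hc : IsCompact (E ∩ l ⁻¹' Ici t) :=
      hE.of_isClosed_subset (hl.preimage_isClosed_of_isClosed hE.isClosed isClosed_Ici)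
        inter_subset_left
    obtain ⟨x, hx, hm⟩ := hc.exists_isMinOn h0 (hl.mono inter_subset_left)
    have hx2 : t ≤ l x := hx.2
    have hη : 0 ≤ η := by
      by_contra hn
      have h1 := ht x hx.1
      have : η * ((n + 1 : ℕ) : ℝ) ≤ 0 := mul_nonpos_of_nonpos_of_nonneg (by linarith) (by positivity)
      linarith
    obtain ⟨F, h1, h2, h3, h4⟩ := ih (r x) fun y hy => by
      have := ht y hy
      have := h x hx.1
      push_cast at *
      linarith
    refine ⟨insert x F, by rw [Finset.coe_insert]; exact insert_subset hx.1 h1, fun y hy => ?_,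
      h3.insert fun y hy => Or.inl (h2 y hy), fun y hy h5 => ?_⟩
    · rcases Finset.mem_insert.1 hy with rfl | hy
      · exact hx2
      · linarith [h2 y hy, h x hx.1]
    · rcases le_total (l y) (r x) with h6 | h6
      · exact ⟨x, Finset.mem_insert_self _ _, hm ⟨hy, h5⟩, h6⟩
      · obtain ⟨z, hz, h7⟩ := h4 y hy h6
        exact ⟨z, Finset.mem_insert_of_mem hz, h7⟩

theorem cover {E : Set ℝ} (hE : IsCompact E) {l r : ℝ → ℝ} (hl : ContinuousOn l E)
    (hr : ContinuousOn r E) (h : ∀ x ∈ E, l x < r x) :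
    ∃ F : Finset ℝ, ↑F ⊆ E ∧ Sep l r F ∧ ∀ y ∈ E, ∃ x ∈ F, l x ≤ l y ∧ l y ≤ r x := by
  rcases E.eq_empty_or_nonempty with rfl | h0
  · exact ⟨∅, by simp, sep_empty _ _, by simp⟩
  obtain ⟨z, hz, hm⟩ := hE.exists_isMinOn h0 (hr.sub hl)
  obtain ⟨a, ha, h1⟩ := hE.exists_isMinOn h0 hl
  obtain ⟨b, hb, h2⟩ := hE.exists_isMaxOn h0 hl
  have hη : 0 < r z - l z := sub_pos.2 (h z hz)
  obtain ⟨n, hn⟩ := exists_nat_gt ((l b - l a) / (r z - l z))
  rw [div_lt_iff₀ hη] at hn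
  obtain ⟨F, h3, -, h4, h5⟩ := greedy hE hl (η := r z - l z) (r := r)
    (fun x hx => by have : r z - l z ≤ r x - l x := hm hx; linarith) n (l a)
    fun y hy => by have : l y ≤ l b := h2 hy; linarith
  exact ⟨F, h3, h4, fun y hy => h5 y hy (h1 hy)⟩

/-- Both end point families. -/
theorem cover2 {E : Set ℝ} (hE : IsCompact E) {δ : ℝ → ℝ} (hc : ContinuousOn δ E)
    (hp : ∀ x ∈ E, 0 < δ x) :
    (∃ F : Finset ℝ, ↑F ⊆ E ∧ Dis δ F ∧ ∀ y ∈ E, ∃ x ∈ F, y - δ y ∈ Icc (x - δ x) (x + δ x)) ∧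
    ∃ F : Finset ℝ, ↑F ⊆ E ∧ Dis δ F ∧ ∀ y ∈ E, ∃ x ∈ F, y + δ y ∈ Icc (x - δ x) (x + δ x) := by
  constructor
  · exact cover hE (continuousOn_id.sub hc) (continuousOn_id.add hc)
      fun x hx => show x - δ x < x + δ x by linarith [hp x hx]
  · obtain ⟨F, h1, h2, h3⟩ := cover hE (l := fun x => -(x + δ x)) (r := fun x => -(x - δ x))
      (continuousOn_id.add hc).neg (continuousOn_id.sub hc).neg fun x hx => by linarith [hp x hx]
    refine ⟨F, h1, fun x hx y hy hxy => ?_, fun y hy => ?_⟩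
    · rcases h2 x hx y hy hxy with h | h
      · exact Or.inr (neg_le_neg_iff.1 h)
      · exact Or.inl (neg_le_neg_iff.1 h)
    · obtain ⟨x, hx, h4, h5⟩ := h3 y hy
      exact ⟨x, hx, neg_le_neg_iff.1 h5, neg_le_neg_iff.1 h4⟩

/-- A finite union of intervals is covered by two separated subfamilies. -/
theorem two_fam {l r : ℝ → ℝ} (F : Finset ℝ) : (∀ x ∈ F, l x < r x) →
    ∃ A B : Finset ℝ, A ⊆ F ∧ B ⊆ F ∧ Disjoint A B ∧ Sep l r A ∧ Sep l r B ∧
      ∀ z ∈ F, ∀ t ∈ Ioo (l z) (r z), ∃ y ∈ A ∪ B, t ∈ Ioo (l y) (r y) := by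
  induction F using Finset.strongInduction with
  | H F ih =>
    intro h
    rcases F.eq_empty_or_nonempty with rfl | h0
    · exact ⟨∅, ∅, by simp, by simp, by simp, sep_empty _ _, sep_empty _ _, by simp⟩
    obtain ⟨x, hx, hm⟩ := F.exists_max_image r h0
    obtain ⟨y, hy, hn⟩ := (F.filter fun z => l x < r z).exists_min_image l
      ⟨x, Finset.mem_filter.2 ⟨hx, h x hx⟩⟩
    obtain ⟨hy1, hy2⟩ := Finset.mem_filter.1 hy
    set G := (F.filter fun z => z = y ∨ r z ≤ l x).erase x with hG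
    have hs : G ⊆ F := (Finset.erase_subset _ _).trans (Finset.filter_subset _ _)
    have hxG : x ∉ G := Finset.notMem_erase _ _
    have key : ∀ A B : Finset ℝ, A ⊆ G → B ⊆ G → Disjoint A B → Sep l r A → Sep l r B →
        (∀ z ∈ G, ∀ t ∈ Ioo (l z) (r z), ∃ y ∈ A ∪ B, t ∈ Ioo (l y) (r y)) → y ∉ B →
        ∃ A B : Finset ℝ, A ⊆ F ∧ B ⊆ F ∧ Disjoint A B ∧ Sep l r A ∧ Sep l r B ∧
          ∀ z ∈ F, ∀ t ∈ Ioo (l z) (r z), ∃ y ∈ A ∪ B, t ∈ Ioo (l y) (r y) := by
      intro A B hA hB hd sA sB hc hyB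
      refine ⟨A, insert x B, hA.trans hs, Finset.insert_subset hx (hB.trans hs),
        Finset.disjoint_insert_right.2 ⟨fun h => hxG (hA h), hd⟩, sA,
        sB.insert fun z hz => Or.inr ?_, fun z hz t ht => ?_⟩
      · rcases (Finset.mem_filter.1 (Finset.mem_of_mem_erase (hB hz))).2 with rfl | h
        exacts [absurd hz hyB, h]
      have up : ∀ w ∈ G, t ∈ Ioo (l w) (r w) → ∃ y ∈ A ∪ insert x B, t ∈ Ioo (l y) (r y) :=
        fun w hw h1 => by
          obtain ⟨v, hv, h2⟩ := hc w hw t h1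
          exact ⟨v, Finset.union_subset_union_right (Finset.subset_insert _ _) hv, h2⟩
      rcases lt_or_ge (l x) t with h1 | h1
      · exact ⟨x, by simp, h1, ht.2.trans_le (hm z hz)⟩
      rcases lt_or_ge (l x) (r z) with h2 | h2
      · have h3 := (hn z (Finset.mem_filter.2 ⟨hz, h2⟩)).trans_lt ht.1
        exact up y (Finset.mem_erase.2 ⟨by rintro rfl; linarith,
          Finset.mem_filter.2 ⟨hy1, Or.inl rfl⟩⟩) ⟨h3, h1.trans_lt hy2⟩
      · exact up z (Finset.mem_erase.2 ⟨by rintro rfl; linarith [h z hz],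
          Finset.mem_filter.2 ⟨hz, Or.inr h2⟩⟩) ht
    obtain ⟨A, B, hA, hB, hd, sA, sB, hc⟩ := ih G
      (Finset.ssubset_iff_subset_ne.2 ⟨hs, fun e => hxG (e ▸ hx)⟩) fun z hz => h z (hs hz)
    by_cases hyB : y ∈ B
    · exact key B A hB hA hd.symm sB sA (by rwa [Finset.union_comm])
        (Finset.disjoint_right.1 hd hyB)
    · exact key A B hA hB hd sA sB hc hyB

theorem vol_U {E : Set ℝ} {δ : ℝ → ℝ} (hp : ∀ x ∈ E, 0 < δ x) {S : ℝ}
    (hS : ∀ F : Finset ℝ, ↑F ⊆ E → Dis δ F → ∑ x ∈ F, 2 * δ x ≤ S) :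
    volume (⋃ x ∈ E, Ioo (x - δ x) (x + δ x)) ≤ ENNReal.ofReal (2 * S) := by
  have h0 : 0 ≤ S := by simpa using hS ∅ (by simp) (sep_empty _ _)
  rw [(isOpen_biUnion fun _ _ => isOpen_Ioo).measure_eq_iSup_isCompact]
  refine iSup_le fun K => iSup_le fun hK => iSup_le fun hc => ?_
  obtain ⟨b, hb, hf, hcov⟩ := hc.elim_finite_subcover_image (fun _ _ => isOpen_Ioo) hK
  lift b to Finset ℝ using hf
  obtain ⟨A, B, hA, hB, -, sA, sB, h⟩ := two_fam (l := fun x => x - δ x) (r := fun x => x + δ x) b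
    fun x hx => by linarith [hp x (hb hx)]
  have hA' : ↑A ⊆ E := (Finset.coe_subset.2 hA).trans hb
  have hB' : ↑B ⊆ E := (Finset.coe_subset.2 hB).trans hb
  calc volume K ≤ volume ((⋃ x ∈ A, Ioo (x - δ x) (x + δ x)) ∪ ⋃ x ∈ B, Ioo (x - δ x) (x + δ x)) := by
        refine measure_mono fun t ht => ?_
        obtain ⟨z, hz, h1⟩ := mem_iUnion₂.1 (hcov ht)
        obtain ⟨y, hy, h2⟩ := h z hz t h1
        rcases Finset.mem_union.1 hy with hy | hy
        exacts [Or.inl (mem_iUnion₂.2 ⟨y, hy, h2⟩), Or.inr (mem_iUnion₂.2 ⟨y, hy, h2⟩)]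
    _ ≤ ENNReal.ofReal S + ENNReal.ofReal S := (measure_union_le _ _).trans (add_le_add
        ((vol_le fun x hx => hp x (hA' hx)).trans (ENNReal.ofReal_le_ofReal (hS A hA' sA)))
        ((vol_le fun x hx => hp x (hB' hx)).trans (ENNReal.ofReal_le_ofReal (hS B hB' sB))))
    _ = _ := by rw [← ENNReal.ofReal_add h0 h0, two_mul]

/-- A monotone map that is piecewise a translation does not decrease the measure. -/
theorem transl (Ψ : ℝ → ℝ) (V : Finset ℝ) : ∀ (E : Set ℝ) (a b : ℝ), a ≤ b → MonotoneOn Ψ E →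
    (∀ x ∈ E, Ψ x - x ∈ V) → (∀ x ∈ E, Ψ x ∈ Icc a b) → volume E ≤ ENNReal.ofReal (b - a) := by
  induction V using Finset.induction_on with
  | empty =>
    intro E a b _ _ h _
    rw [eq_empty_of_forall_notMem fun x hx => Finset.notMem_empty _ (h x hx)]
    simp
  | insert v V hv ih =>
    intro E a b hab hm h hi
    rcases {x ∈ E | Ψ x - x = v}.eq_empty_or_nonempty with h0 | h0
    · exact ih E a b hab hm (fun x hx => (Finset.mem_insert.1 (h x hx)).resolve_left fun e =>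
        absurd (show x ∈ {x ∈ E | Ψ x - x = v} from ⟨hx, e⟩) (by rw [h0]; simp)) hi
    set D := {x ∈ E | Ψ x - x = v} with hD
    have lb : a - v ∈ lowerBounds D := fun x hx => by linarith [(hi x hx.1).1, hx.2]
    have ub : b - v ∈ upperBounds D := fun x hx => by linarith [(hi x hx.1).2, hx.2]
    have h1 := le_csInf h0 lb
    have h2 := csSup_le h0 ub
    have h3 : sInf D ≤ sSup D := csInf_le_csSup h0 ⟨_, lb⟩ ⟨_, ub⟩
    have e1 := ih (E ∩ Iio (sInf D)) a (sInf D + v) (by linarith) (hm.mono inter_subset_left)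
      (fun x hx => (Finset.mem_insert.1 (h x hx.1)).resolve_left fun e =>
        absurd (csInf_le ⟨_, lb⟩ (show x ∈ D from ⟨hx.1, e⟩)) (not_le.2 hx.2))
      fun x hx => ⟨(hi x hx.1).1, by
        have : Ψ x - v ≤ sInf D := le_csInf h0 fun y hy => by
          linarith [hm hx.1 hy.1 (hx.2.le.trans (csInf_le ⟨_, lb⟩ hy)), hy.2]
        linarith⟩
    have e2 := ih (E ∩ Ioi (sSup D)) (sSup D + v) b (by linarith) (hm.mono inter_subset_left)
      (fun x hx => (Finset.mem_insert.1 (h x hx.1)).resolve_left fun e =>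
        absurd (le_csSup ⟨_, ub⟩ (show x ∈ D from ⟨hx.1, e⟩)) (not_le.2 hx.2))
      fun x hx => ⟨by
        have : sSup D ≤ Ψ x - v := csSup_le h0 fun y hy => by
          linarith [hm hy.1 hx.1 ((le_csSup ⟨_, ub⟩ hy).trans hx.2.le), hy.2]
        linarith, (hi x hx.1).2⟩
    calc volume E ≤ volume ((E ∩ Iio (sInf D) ∪ Icc (sInf D) (sSup D)) ∪ E ∩ Ioi (sSup D)) := by
          refine measure_mono fun x hx => ?_
          rcases lt_or_ge x (sInf D) with h4 | h4
          · exact Or.inl (Or.inl ⟨hx, h4⟩)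
          rcases lt_or_ge (sSup D) x with h5 | h5
          exacts [Or.inr ⟨hx, h5⟩, Or.inl (Or.inr ⟨h4, h5⟩)]
      _ ≤ ENNReal.ofReal (sInf D + v - a) + ENNReal.ofReal (sSup D - sInf D) +
          ENNReal.ofReal (b - (sSup D + v)) := (measure_union_le _ _).trans (add_le_add
            ((measure_union_le _ _).trans (add_le_add e1 Real.volume_Icc.le)) e2)
      _ = _ := by
          rw [← ENNReal.ofReal_add (by linarith) (by linarith),
            ← ENNReal.ofReal_add (by linarith) (by linarith)]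
          congr 1
          ring

end Pool.Agent.MP_ebd0f7_an
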