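import Mathlib.MeasureTheory.Measure.Lebesgue.Basic

/-! Disjoint centred intervals: definitions. -/

namespace Pool.Agent.MP_ebd0f7_an

open Set MeasureTheory

/-- There are countably many centres in `E` whose intervals `(x - δ x, x + δ x)` are pairwise
disjoint and have total length at least `c |E|`. -/
def Good (c : ℝ) (E : Set ℝ) (δ : ℝ → ℝ) : Prop :=
  ∃ T : Set ℝ, T ⊆ E ∧ T.Countable ∧
    T.PairwiseDisjoint (fun x => Ioo (x - δ x) (x + δ x)) ∧
    ENNReal.ofReal c * volume E ≤ ∑' x : T, volume (Ioo (x - δ x) (x + δ x) : Set ℝ)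

/-- The constants that are admissible for all compact `E` and all positive radii `δ` on `E`
with the property `P`. -/
def Adm (P : Set ℝ → (ℝ → ℝ) → Prop) : Set ℝ :=
  {c | ∀ (E : Set ℝ) (δ : ℝ → ℝ), IsCompact E → (∀ x ∈ E, 0 < δ x) → P E δ → Good c E δ}

end Pool.Agent.MP_ebd0f7_an
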