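import Pool.Agent.MP_ebd0f7_an.RRCore

/-! Two-valued radii: selection rules. -/

namespace Pool.Agent.MP_ebd0f7_an

open Set MeasureTheory

theorem pick {δ : ℝ → ℝ} {E : Set ℝ} {a C ε : ℝ} (ha : 0 < a) (hC : 0 ≤ C) (hε : 0 ≤ ε)
    (hδ : ∀ x ∈ E, a ≤ δ x) (rule : ∀ A ⊆ E, A.Nonempty → ∃ x ∈ A,
      volume {y ∈ A | y - δ y < x + δ x} ≤ ENNReal.ofReal (C * δ x + ε)) (n : ℕ) :
    ∀ (t : ℝ), ∀ A ⊆ E, (∀ x ∈ A, t ≤ x - δ x ∧ x - δ x < t + 2 * a * n) →
      ∃ F : Finset ℝ, ↑F ⊆ A ∧ Dis δ F ∧ F.card ≤ n ∧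
        volume A ≤ ENNReal.ofReal (∑ x ∈ F, (C * δ x + ε)) := by
  induction n with
  | zero =>
    intro t A _ h
    refine ⟨∅, by simp, sep_empty _ _, le_rfl, ?_⟩
    rw [eq_empty_of_forall_notMem (s := A) fun x hx => by
      have := h x hx; simp only [Nat.cast_zero, mul_zero, add_zero] at this; linarith [this.1, this.2]]
    simp
  | succ n ih =>
    intro t A hA h
    rcases A.eq_empty_or_nonempty with rfl | h0
    · exact ⟨∅, by simp, sep_empty _ _, by simp, by simp⟩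
    obtain ⟨x, hx, hk⟩ := rule A hA h0
    have hx1 := hδ x (hA hx)
    obtain ⟨F, h1, h2, h3, h4⟩ := ih (x + δ x) {y ∈ A | x + δ x ≤ y - δ y}
      (fun y hy => hA hy.1) fun y hy => ⟨hy.2, by
        have := (h y hy.1).2
        have := (h x hx).1
        push_cast at *
        linarith⟩
    have hxF : x ∉ F := fun e => by have := (h1 e).2; linarith
    refine ⟨insert x F, by rw [Finset.coe_insert]; exact insert_subset hx fun y hy => (h1 hy).1,
      h2.insert fun y hy => Or.inl (h1 hy).2, (Finset.card_insert_le _ _).trans (by omega), ?_⟩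
    rw [Finset.sum_insert hxF, ENNReal.ofReal_add (by nlinarith) (Finset.sum_nonneg fun y hy => by
      nlinarith [hδ y (hA (h1 hy).1)])]
    refine le_trans (measure_mono fun y hy => ?_) ((measure_union_le _ _).trans (add_le_add hk h4))
    exact (lt_or_ge _ _).imp (fun h => ⟨hy, h⟩) fun h => ⟨hy, h⟩

theorem good_pick {δ : ℝ → ℝ} {E : Set ℝ} {a b C : ℝ} (ha : 0 < a) (hab : a ≤ b) (hC : 0 < C)
    (hE : IsCompact E) (hδ : ∀ x ∈ E, δ x = a ∨ δ x = b)
    (rule : ∀ ε > 0, ∀ A ⊆ E, A.Nonempty → BddBelow A → ∃ x ∈ A,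
      volume {y ∈ A | y - δ y < x + δ x} ≤ ENNReal.ofReal (C * δ x + ε)) :
    Good (2 / C) E δ := by
  classical
  have h1 : ∀ x ∈ E, a ≤ δ x ∧ δ x ≤ b := fun x hx => by
    rcases hδ x hx with h | h <;> rw [h] <;> simp [hab]
  obtain ⟨p, hp⟩ := hE.bddBelow
  obtain ⟨q, hq⟩ := hE.bddAbove
  obtain ⟨n, hn⟩ := exists_nat_gt ((q - p + b) / (2 * a))
  rw [div_lt_iff₀ (by linarith)] at hn
  have hf : {s | ∃ F : Finset ℝ, ↑F ⊆ E ∧ Dis δ F ∧ F.card ≤ n ∧ ∑ x ∈ F, δ x = s}.Finite := by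
    refine (((finite_Iic n).prod (finite_Iic n)).image fun p : ℕ × ℕ => p.1 * a + p.2 * b).subset ?_
    rintro _ ⟨F, hF, -, hc, rfl⟩
    refine ⟨((F.filter fun x => δ x = a).card, (F.filter fun x => ¬δ x = a).card),
      ⟨(Finset.card_filter_le _ _).trans hc, (Finset.card_filter_le _ _).trans hc⟩, ?_⟩
    rw [← Finset.sum_filter_add_sum_filter_not F (fun x => δ x = a),
      Finset.sum_congr rfl fun x hx => (Finset.mem_filter.1 hx).2,
      Finset.sum_congr (s₁ := F.filter fun x => ¬δ x = a) rfl fun x hx =>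
        (hδ x (hF (Finset.mem_filter.1 hx).1)).resolve_left (Finset.mem_filter.1 hx).2]
    simp
  obtain ⟨_, ⟨F, hF, hd, -, rfl⟩, hm⟩ := exists_max_image _ id hf
    ⟨0, ∅, by simp, sep_empty _ _, by simp, by simp⟩
  refine good_of (fun x hx => ha.trans_le (h1 x hx).1) hE.measure_lt_top.ne hF hd ?_
  rw [← Finset.mul_sum, div_mul_eq_mul_div, div_le_iff₀ hC]
  suffices (volume E).toReal ≤ C * ∑ x ∈ F, δ x by linarith
  refine le_of_forall_pos_le_add fun ε hε => ?_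
  have he : 0 < ε / (n + 1) := by positivity
  obtain ⟨G, hG, dG, cG, h2⟩ := pick ha hC.le he.le (fun x hx => (h1 x hx).1)
    (fun A hA h0 => rule _ he A hA h0 ⟨p, fun x hx => hp (hA hx)⟩) n (p - b) E subset_rfl
    fun x hx => ⟨by linarith [hp hx, (h1 x hx).2], by linarith [hq hx, (h1 x hx).1]⟩
  have h3 := ENNReal.toReal_le_of_le_ofReal (Finset.sum_nonneg fun y hy => by
    nlinarith [(h1 y (hG hy)).1]) h2
  have h4 : ∑ x ∈ G, δ x ≤ ∑ x ∈ F, δ x := hm _ ⟨G, hG, dG, cG, rfl⟩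
  rw [Finset.sum_add_distrib, ← Finset.mul_sum, Finset.sum_const, nsmul_eq_mul] at h3
  have h5 : (G.card : ℝ) ≤ n := by exact_mod_cast cG
  have h6 : (n + 1 : ℝ) * (ε / (n + 1)) = ε := by field_simp
  nlinarith [mul_le_mul_of_nonneg_left h4 hC.le]

theorem good_ratio {δ : ℝ → ℝ} {E : Set ℝ} {a ρ : ℝ} (ha : 0 < a) (hρ : 1 ≤ ρ)
    (hE : IsCompact E) (hδ : ∀ x ∈ E, δ x = a ∨ δ x = ρ * a) : Good (2 / (1 + ρ)) E δ := by
  have hab : a ≤ ρ * a := by nlinarith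
  refine good_pick ha hab (by linarith) hE hδ fun ε hε A hA h0 hb => ?_
  obtain ⟨x, hx, h1⟩ := exists_lt_of_csInf_lt h0 (lt_add_of_pos_right _ hε)
  refine ⟨x, hx, (measure_mono (t := Icc (sInf A) (x + δ x + ρ * a)) fun y hy =>
    ⟨csInf_le hb hy.1, ?_⟩).trans ?_⟩
  · rcases hδ y (hA hy.1) with h | h <;> linarith [hy.2]
  · rw [Real.volume_Icc]
    refine ENNReal.ofReal_le_ofReal ?_
    rcases hδ x (hA hx) with h | h <;> rw [h] <;> nlinarith

theorem good_two {δ : ℝ → ℝ} {E : Set ℝ} {a b : ℝ} (ha : 0 < a) (hab : a ≤ b)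
    (hE : IsCompact E) (hδ : ∀ x ∈ E, δ x = a ∨ δ x = b) : Good (2 / 3) E δ := by
  refine good_pick ha hab (by norm_num) hE hδ fun ε hε A hA h0 hb => ?_
  by_cases h : ∃ y ∈ A, δ y = b ∧ y ≤ sInf A + b + ε
  · obtain ⟨x, hx, h1, h2⟩ := h
    refine ⟨x, hx, (measure_mono (t := Icc (sInf A) (x + 2 * b)) fun y hy =>
      ⟨csInf_le hb hy.1, ?_⟩).trans ?_⟩
    · rcases hδ y (hA hy.1) with h | h <;> linarith [hy.2]
    · rw [Real.volume_Icc]
      exact ENNReal.ofReal_le_ofReal (by linarith)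
  push Not at h
  obtain ⟨x, hx, h1⟩ := exists_lt_of_csInf_lt h0 (lt_add_of_pos_right _ hε)
  have h2 : δ x = a := (hδ x (hA hx)).resolve_right fun e => by linarith [h x hx e]
  refine ⟨x, hx, (measure_mono (t := Icc (sInf A) (x + 2 * a) ∪ Icc (sInf A + b + ε) (x + a + b))
    fun y hy => ?_).trans ((measure_union_le _ _).trans ?_)⟩
  · rcases hδ y (hA hy.1) with e | e
    · exact Or.inl ⟨csInf_le hb hy.1, by linarith [hy.2]⟩
    · exact Or.inr ⟨(h y hy.1 e).le, by linarith [hy.2]⟩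
  · rw [Real.volume_Icc, Real.volume_Icc]
    refine (add_le_add (ENNReal.ofReal_le_ofReal (show _ ≤ 2 * a + ε by linarith))
      (ENNReal.ofReal_le_ofReal (show _ ≤ a by linarith))).trans (le_of_eq ?_)
    rw [← ENNReal.ofReal_add (by linarith) ha.le, h2]
    congr 1
    ring

end Pool.Agent.MP_ebd0f7_an
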